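import Mathlib

/-! The functional. -/

set_option autoImplicit false

namespace Pool.Agent.TH779.Ord

/-- the functional: `1` for one prime, very negative for several primes -/
noncomputable def fn (lam : ℝ) (m : ℕ) : ℝ := m - lam * (m * (m - 1))

theorem fn_le {lam : ℝ} (hl : 0 ≤ lam) (m : ℕ) : fn lam m ≤ m := by
  unfold fn
  rcases Nat.eq_zero_or_pos m with h | h
  · subst h; simp
  · have h1 : (1 : ℝ) ≤ m := by exact_mod_cast h
    have : 0 ≤ lam * (m * (m - 1)) := by
      have : (0 : ℝ) ≤ m - 1 := by linarith
      positivity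
    linarith

end Pool.Agent.TH779.Ord
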