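import Mathlib

/-! Counting the permutations which contain a pattern. -/

set_option autoImplicit false

namespace Pool.Agent.TH779.Ord

open Finset

/-- the rank permutation of an injective function -/
theorem exists_rank {k : ℕ} {β : Type*} [LinearOrder β] (f : Fin k → β) (hf : Function.Injective f) :
    ∃ π : Equiv.Perm (Fin k), ∀ i j, π i < π j ↔ f i < f j := by
  have h1 : StrictMono (f ∘ Tuple.sort f) :=
    (Tuple.monotone_sort f).strictMono_of_injective (hf.comp (Tuple.sort f).injective)
  refine ⟨(Tuple.sort f).symm, fun i j => ?_⟩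
  have h2 := h1.lt_iff_lt (a := (Tuple.sort f).symm i) (b := (Tuple.sort f).symm j)
  simp only [Function.comp_apply, Equiv.apply_symm_apply] at h2
  exact h2.symm

/-- a permutation of `Fin c` is determined by its order relation -/
theorem perm_unique {c : ℕ} (e e' : Equiv.Perm (Fin c)) (h : ∀ i j, e i < e j ↔ e' i < e' j) :
    e = e' := by
  have h1 : StrictMono (fun i => e' (e.symm i)) := by
    intro i j hij
    simp only
    rw [← h]
    simpa using hij
  have h2 : (fun i => e' (e.symm i)) = id := by
    apply (h1.range_inj strictMono_id).1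
    rw [Set.range_id]
    exact (e'.surjective.comp e.symm.surjective).range_eq
  ext i
  have h3 := congrFun h2 (e i)
  simp only [Equiv.symm_apply_apply, id_eq] at h3
  rw [h3]

/-- permutations of `Fin N` with a given pattern at given places -/
theorem pat_count {N c : ℕ} (y : Fin c ↪ Fin N) (τ : Equiv.Perm (Fin c)) :
    (univ.filter (fun σ : Equiv.Perm (Fin N) => ∀ i j, σ (y i) < σ (y j) ↔ τ i < τ j)).card *
      c.factorial ≤ N.factorial := by
  classical
  have h1 : Fintype.card (Equiv.Perm (Fin c)) = c.factorial := by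
    rw [Fintype.card_perm, Fintype.card_fin]
  have h2 : Fintype.card (Equiv.Perm (Fin N)) = N.factorial := by
    rw [Fintype.card_perm, Fintype.card_fin]
  rw [← h1, ← h2, ← card_univ (α := Equiv.Perm (Fin c)), ← card_univ (α := Equiv.Perm (Fin N)),
    ← card_product]
  apply card_le_card_of_injOn
    (fun x : Equiv.Perm (Fin N) × Equiv.Perm (Fin c) => x.1 * x.2.viaFintypeEmbedding y)
  · intro x _
    exact mem_coe.2 (mem_univ _)
  · rintro ⟨σ, ρ⟩ hx ⟨σ', ρ'⟩ hx' h
    rw [mem_coe, mem_product, mem_filter] at hx hx'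
    have hσ := hx.1.2
    have hσ' := hx'.1.2
    simp only at h hσ hσ'
    have h3 : ∀ i, σ (y (ρ i)) = σ' (y (ρ' i)) := by
      intro i
      have h4 := congrArg (fun e : Equiv.Perm (Fin N) => e (y i)) h
      simp only [Equiv.Perm.coe_mul, Function.comp_apply,
        Equiv.Perm.viaFintypeEmbedding_apply_image] at h4
      exact h4
    have h5 : ρ.trans τ = ρ'.trans τ := by
      apply perm_unique
      intro i j
      simp only [Equiv.trans_apply]
      rw [← hσ, ← hσ', h3, h3]
    have h6 : ρ = ρ' := by
      ext i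
      have := congrArg (fun e : Equiv.Perm (Fin c) => e i) h5
      simp only [Equiv.trans_apply] at this
      rw [τ.injective this]
    subst h6
    have h7 : σ = σ' := by
      exact mul_right_cancel h
    rw [h7]

/-- the number of strictly monotone maps -/
theorem mono_count (N c : ℕ) :
    (univ.filter (fun y : Fin c → Fin N => StrictMono y)).card ≤ 2 ^ N := by
  classical
  have h1 : (univ : Finset (Finset (Fin N))).card = 2 ^ N := by
    rw [card_univ, Fintype.card_finset, Fintype.card_fin]
  rw [← h1]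
  apply card_le_card_of_injOn (fun y : Fin c → Fin N => univ.image y)
  · intro x _
    exact mem_coe.2 (mem_univ _)
  · intro y hy y' hy' h
    rw [mem_coe, mem_filter] at hy hy'
    apply (hy.2.range_inj hy'.2).1
    have h2 : univ.image y = univ.image y' := h
    have h3 : ((univ.image y : Finset (Fin N)) : Set (Fin N)) = (univ.image y' : Finset (Fin N)) := by
      rw [h2]
    simpa using h3

/-- If every permutation of `Fin N` has, at some `c` places, the pattern of a member of `P` at some `c`
places, then `P` is large. -/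
theorem patterns_many {N k c : ℕ} (P : Finset (Equiv.Perm (Fin k)))
    (h : ∀ σ : Equiv.Perm (Fin N), ∃ π ∈ P, ∃ (x : Fin c → Fin k) (y : Fin c → Fin N),
      StrictMono x ∧ StrictMono y ∧ ∀ i j, σ (y i) < σ (y j) ↔ π (x i) < π (x j)) :
    c.factorial ≤ P.card * 2 ^ (k + N) := by
  classical
  set XS := univ.filter (fun x : Fin c → Fin k => StrictMono x) with hXS
  set YS := univ.filter (fun y : Fin c → Fin N => StrictMono y) with hYS
  set A : Equiv.Perm (Fin k) → (Fin c → Fin k) → (Fin c → Fin N) → Finset (Equiv.Perm (Fin N)) :=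
    fun π x y => univ.filter (fun σ => ∀ i j, σ (y i) < σ (y j) ↔ π (x i) < π (x j)) with hA
  have h1 : (univ : Finset (Equiv.Perm (Fin N))) ⊆
      (P ×ˢ (XS ×ˢ YS)).biUnion (fun t => A t.1 t.2.1 t.2.2) := by
    intro σ _
    obtain ⟨π, hπ, x, y, hx, hy, hxy⟩ := h σ
    rw [mem_biUnion]
    refine ⟨(π, x, y), ?_, ?_⟩
    · rw [mem_product, mem_product, hXS, hYS, mem_filter, mem_filter]
      exact ⟨hπ, ⟨mem_univ _, hx⟩, ⟨mem_univ _, hy⟩⟩
    · rw [hA]
      simp only [mem_filter, mem_univ, true_and]
      exact hxy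
  have h2 : (univ : Finset (Equiv.Perm (Fin N))).card = N.factorial := by
    rw [card_univ, Fintype.card_perm, Fintype.card_fin]
  have h3 : N.factorial ≤ ∑ t ∈ P ×ˢ (XS ×ˢ YS), (A t.1 t.2.1 t.2.2).card := by
    rw [← h2]
    exact (card_le_card h1).trans card_biUnion_le
  have h4 : ∀ t ∈ P ×ˢ (XS ×ˢ YS), (A t.1 t.2.1 t.2.2).card * c.factorial ≤ N.factorial := by
    rintro ⟨π, x, y⟩ ht
    rw [mem_product, mem_product, hXS, hYS, mem_filter, mem_filter] at ht
    obtain ⟨-, ⟨-, hx⟩, ⟨-, hy⟩⟩ := ht
    simp only at hx hy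
    obtain ⟨τ, hτ⟩ := exists_rank (fun i => π (x i)) (π.injective.comp hx.injective)
    have h5 := pat_count (⟨y, hy.injective⟩ : Fin c ↪ Fin N) τ
    refine le_trans (Nat.mul_le_mul_right _ (card_le_card ?_)) h5
    intro σ hσ
    rw [hA] at hσ
    simp only [mem_filter, mem_univ, true_and] at hσ ⊢
    intro i j
    rw [hτ]
    exact hσ i j
  have h5 : N.factorial * c.factorial ≤ (P.card * 2 ^ (k + N)) * N.factorial := by
    calc N.factorial * c.factorial ≤ (∑ t ∈ P ×ˢ (XS ×ˢ YS), (A t.1 t.2.1 t.2.2).card) * c.factorial :=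
          Nat.mul_le_mul_right _ h3
      _ = ∑ t ∈ P ×ˢ (XS ×ˢ YS), (A t.1 t.2.1 t.2.2).card * c.factorial := by rw [sum_mul]
      _ ≤ ∑ _t ∈ P ×ˢ (XS ×ˢ YS), N.factorial := sum_le_sum h4
      _ = (P ×ˢ (XS ×ˢ YS)).card * N.factorial := by rw [sum_const, smul_eq_mul]
      _ ≤ (P.card * 2 ^ (k + N)) * N.factorial := by
          apply Nat.mul_le_mul_right
          rw [card_product, card_product, pow_add]
          exact Nat.mul_le_mul_left _ (Nat.mul_le_mul (mono_count k c) (mono_count N c))
  rw [mul_comm] at h5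
  exact Nat.le_of_mul_le_mul_right h5 (Nat.factorial_pos N)

end Pool.Agent.TH779.Ord
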