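import Mathlib
import Pool.Agent.TH779.Ord.Count

/-! Positions whose gaps are ordered like a given permutation. -/

set_option autoImplicit false

namespace Pool.Agent.TH779.Ord

open Finset

/-- the base point of the class `g` -/
def C (s : ℕ → ℕ) (B g : ℕ) : ℕ := ∑ l ∈ range g, B ^ (s l + 1)

/-- the position with the number `x` -/
def hh (s : ℕ → ℕ) (B K x : ℕ) : ℕ := C s B (x / K) + 2 ^ x

theorem C_mono (s : ℕ → ℕ) (B : ℕ) {g g' : ℕ} (h : g ≤ g') : C s B g ≤ C s B g' :=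
  sum_le_sum_of_subset (range_subset_range.2 h)

theorem C_split (s : ℕ → ℕ) (B : ℕ) {g g' : ℕ} (h : g ≤ g') :
    C s B g' = C s B g + ∑ l ∈ Ico g g', B ^ (s l + 1) := by
  unfold C
  rw [range_eq_Ico, range_eq_Ico, sum_Ico_consecutive _ (Nat.zero_le g) h]

theorem hh_strictMono (s : ℕ → ℕ) (B K : ℕ) : StrictMono (hh s B K) := by
  intro x y hxy
  unfold hh
  have h1 : C s B (x / K) ≤ C s B (y / K) := C_mono s B (Nat.div_le_div_right hxy.le)
  have h2 : 2 ^ x < 2 ^ y := Nat.pow_lt_pow_right (by norm_num) hxy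
  omega

theorem two_pow_inj {x y x' y' : ℕ} (h : x < y) (h' : x' < y') (e : 2 ^ y - 2 ^ x = 2 ^ y' - 2 ^ x') :
    x = x' := by
  have key : ∀ x y x' y' : ℕ, x < y → x' < y' → 2 ^ y - 2 ^ x = 2 ^ y' - 2 ^ x' → ¬ x < x' := by
    intro x y x' y' h h' e hx
    have h1 : 2 ^ x < 2 ^ y := Nat.pow_lt_pow_right (by norm_num) h
    have h2 : 2 ^ x' < 2 ^ y' := Nat.pow_lt_pow_right (by norm_num) h'
    have e2 : 2 ^ y + 2 ^ x' = 2 ^ y' + 2 ^ x := by omega
    have d1 : 2 ^ (x + 1) ∣ 2 ^ y + 2 ^ x' :=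
      dvd_add (pow_dvd_pow 2 h) (pow_dvd_pow 2 hx)
    rw [e2] at d1
    have d2 : 2 ^ (x + 1) ∣ 2 ^ y' := pow_dvd_pow 2 (by omega)
    have d3 : 2 ^ (x + 1) ∣ 2 ^ x := (Nat.dvd_add_right d2).1 d1
    have := Nat.le_of_dvd (Nat.pow_pos (by norm_num)) d3
    have h3 : 2 ^ x < 2 ^ (x + 1) := Nat.pow_lt_pow_right (by norm_num) (by omega)
    omega
  rcases lt_trichotomy x x' with h1 | h1 | h1
  · exact absurd h1 (key x y x' y' h h' e)
  · exact h1
  · exact absurd h1 (key x' y' x y h' h e.symm)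

theorem gap_same (s : ℕ → ℕ) (B K : ℕ) {x y M : ℕ} (hyM : y < M)
    (h : x / K = y / K) : hh s B K y - hh s B K x = 2 ^ y - 2 ^ x ∧
      hh s B K y - hh s B K x < 2 ^ M := by
  have h1 : hh s B K y - hh s B K x = 2 ^ y - 2 ^ x := by
    unfold hh
    rw [h]
    omega
  refine ⟨h1, ?_⟩
  rw [h1]
  have h2 : 2 ^ y < 2 ^ M := Nat.pow_lt_pow_right (by norm_num) hyM
  exact (Nat.sub_le _ _).trans_lt h2

theorem gap_cross (s : ℕ → ℕ) (B K : ℕ) {x y M N m : ℕ} (hxy : x < y) (hyM : y < M)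
    (hN : y / K ≤ N) (hs : ∀ l < N, ∀ l' < N, s l = s l' → l = l')
    (hB : 2 ^ M ≤ B) (hBN : N ≤ B) (hm1 : x / K ≤ m) (hm2 : m < y / K)
    (hm : ∀ l, x / K ≤ l → l < y / K → s l ≤ s m) :
    B ^ (s m + 1) ≤ hh s B K y - hh s B K x ∧ hh s B K y - hh s B K x ≤ 3 * B ^ (s m + 1) := by
  have h1 : x / K ≤ y / K := Nat.div_le_div_right hxy.le
  have h2 := C_split s B h1
  have h3 : 2 ^ x < 2 ^ y := Nat.pow_lt_pow_right (by norm_num) hxy
  have h4 : 2 ^ y < 2 ^ M := Nat.pow_lt_pow_right (by norm_num) hyM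
  have h5 : hh s B K y - hh s B K x = (∑ l ∈ Ico (x / K) (y / K), B ^ (s l + 1)) + (2 ^ y - 2 ^ x) := by
    unfold hh
    omega
  rw [h5]
  have hmI : m ∈ Ico (x / K) (y / K) := mem_Ico.2 ⟨hm1, hm2⟩
  have hB1 : 1 ≤ B := (Nat.one_le_two_pow).trans hB
  constructor
  · have h6 : B ^ (s m + 1) ≤ ∑ l ∈ Ico (x / K) (y / K), B ^ (s l + 1) :=
      single_le_sum (f := fun l => B ^ (s l + 1)) (fun _ _ => Nat.zero_le _) hmI
    omega
  · have h6 : ∑ l ∈ (Ico (x / K) (y / K)).erase m, B ^ (s l + 1) ≤ N * B ^ (s m) := by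
      have h7 : ∀ l ∈ (Ico (x / K) (y / K)).erase m, B ^ (s l + 1) ≤ B ^ (s m) := by
        intro l hl
        rw [mem_erase, mem_Ico] at hl
        obtain ⟨hlm, hl1, hl2⟩ := hl
        apply Nat.pow_le_pow_right hB1
        have h8 := hm l hl1 hl2
        have h9 : s l ≠ s m := fun h => hlm (hs l (by omega) m (by omega) h)
        omega
      refine (sum_le_card_nsmul _ _ _ h7).trans ?_
      rw [smul_eq_mul]
      apply Nat.mul_le_mul_right
      refine (card_le_card (erase_subset _ _)).trans ?_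
      rw [Nat.card_Ico]
      exact (Nat.sub_le _ _).trans hN
    have h7 : ∑ l ∈ Ico (x / K) (y / K), B ^ (s l + 1) =
        B ^ (s m + 1) + ∑ l ∈ (Ico (x / K) (y / K)).erase m, B ^ (s l + 1) :=
      (add_sum_erase _ _ hmI).symm
    have h8 : N * B ^ (s m) ≤ B ^ (s m + 1) := by
      rw [pow_succ, mul_comm (B ^ s m) B]
      exact Nat.mul_le_mul_right _ hBN
    have h9 : 2 ^ M ≤ B ^ (s m + 1) := hB.trans (Nat.le_self_pow (by omega) B)
    have h10 : 2 ^ y - 2 ^ x ≤ B ^ (s m + 1) := ((Nat.sub_le _ _).trans h4.le).trans h9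
    rw [h7]
    have h11 := h6.trans h8
    generalize B ^ (s m + 1) = w at *
    generalize 2 ^ y - 2 ^ x = w' at *
    omega

/-- the number of inner gaps -/
theorem inner_le (K T : ℕ) (hK : 1 ≤ K) (J : Finset ℕ) (hJ : ∀ x ∈ J, x < T * K) :
    ((range (J.card - 1)).filter (fun e => Nat.nth (· ∈ J) e / K = Nat.nth (· ∈ J) (e + 1) / K)).card ≤
      ∑ g ∈ range T, (J.filter (fun x => x / K = g)).offDiag.card := by
  classical
  have hcard : ∀ hf : (Set.ofPred (· ∈ J)).Finite, hf.toFinset.card = J.card := by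
    intro hf
    congr 1
    ext x
    rw [Set.Finite.mem_toFinset]
    rfl
  have hdisj : ((range T : Finset ℕ) : Set ℕ).PairwiseDisjoint
      (fun g => (J.filter (fun x => x / K = g)).offDiag) := by
    intro g _ g' _ hgg
    rw [Function.onFun, disjoint_left]
    rintro ⟨x, y⟩ h1 h2
    rw [mem_offDiag, mem_filter, mem_filter] at h1 h2
    exact hgg (h1.1.2.symm.trans h2.1.2)
  rw [← card_biUnion hdisj]
  apply card_le_card_of_injOn (fun e => (Nat.nth (· ∈ J) e, Nat.nth (· ∈ J) (e + 1)))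
  · intro e he
    rw [mem_coe, mem_filter, mem_range] at he
    obtain ⟨he1, he2⟩ := he
    have m1 : Nat.nth (· ∈ J) e ∈ J :=
      Nat.nth_mem e (fun hf => by
        have : hf.toFinset.card = J.card := hcard hf
        omega)
    have m2 : Nat.nth (· ∈ J) (e + 1) ∈ J :=
      Nat.nth_mem (e + 1) (fun hf => by
        have : hf.toFinset.card = J.card := hcard hf
        omega)
    have hlt : Nat.nth (· ∈ J) e < Nat.nth (· ∈ J) (e + 1) :=
      Nat.nth_lt_nth' (by omega) (fun hf => by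
        have : hf.toFinset.card = J.card := hcard hf
        omega)
    rw [mem_coe, mem_biUnion]
    refine ⟨Nat.nth (· ∈ J) e / K, ?_, ?_⟩
    · rw [mem_range]
      exact (Nat.div_lt_iff_lt_mul (by omega)).2 (hJ _ m1)
    · rw [mem_offDiag, mem_filter, mem_filter]
      exact ⟨⟨m1, rfl⟩, ⟨m2, he2.symm⟩, hlt.ne⟩
  · intro e he e' he' h
    rw [mem_coe, mem_filter, mem_range] at he he'
    simp only [Prod.mk.injEq] at h
    by_contra hne
    rcases Nat.lt_or_gt_of_ne hne with h1 | h1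
    · have := Nat.nth_lt_nth' (p := (· ∈ J)) h1 (fun hf => by
        have : hf.toFinset.card = J.card := hcard hf
        omega)
      omega
    · have := Nat.nth_lt_nth' (p := (· ∈ J)) h1 (fun hf => by
        have : hf.toFinset.card = J.card := hcard hf
        omega)
      omega

end Pool.Agent.TH779.Ord
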