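import Mathlib
import Pool.Agent.TH779.Ord.Pos
import Pool.Agent.TH779.Ord.Fn

/-! A block of gaps between hits whose order contains a large part of a given permutation. -/

set_option autoImplicit false

namespace Pool.Agent.TH779.Ord

open Finset

/-- the element of `J` with the number `e` -/
noncomputable def el (J : Finset ℕ) (e : ℕ) : ℕ := Nat.nth (· ∈ J) e

theorem hcard' (J : Finset ℕ) : ∀ hf : (Set.ofPred (· ∈ J)).Finite, hf.toFinset.card = J.card := by
  intro hf
  congr 1
  ext x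
  rw [Set.Finite.mem_toFinset]
  rfl

theorem el_mem (J : Finset ℕ) {e : ℕ} (he : e < J.card) : el J e ∈ J :=
  Nat.nth_mem e (fun hf => by
    have := hcard' J hf
    omega)

theorem el_lt (J : Finset ℕ) {e e' : ℕ} (h : e < e') (he : e' < J.card) : el J e < el J e' :=
  Nat.nth_lt_nth' h (fun hf => by
    have := hcard' J hf
    omega)

theorem el_surj (J : Finset ℕ) {x : ℕ} (hx : x ∈ J) : ∃ e < J.card, el J e = x := by
  obtain ⟨e, he, h⟩ := Nat.exists_lt_card_nth_eq (p := (· ∈ J)) hx
  by_cases hf : (Set.ofPred (· ∈ J)).Finite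
  · have := he hf
    rw [hcard' J hf] at this
    exact ⟨e, this, h⟩
  · exfalso
    apply hf
    have : Set.ofPred (· ∈ J) = (J : Set ℕ) := by
      ext x
      rfl
    rw [this]
    exact J.finite_toSet

/-- the gap with the number `e` -/
noncomputable def gp (s : ℕ → ℕ) (B K : ℕ) (J : Finset ℕ) (e : ℕ) : ℕ :=
  hh s B K (el J (e + 1)) - hh s B K (el J e)

/-- counting: the number of elements and the number of inner gaps -/
theorem count_inner {T K k : ℕ} {lam : ℝ} (hK : 1 ≤ K) (hlam : 1 ≤ lam)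
    (J : Finset ℕ) (hJ : ∀ x ∈ J, x < T * K)
    (hΦ : (k : ℝ) + 1 ≤ ∑ g ∈ range T, fn lam (J.filter (fun x => x / K = g)).card) :
    k + 1 ≤ J.card ∧
      lam * ((range (J.card - 1)).filter (fun e => el J e / K = el J (e + 1) / K)).card ≤ J.card := by
  classical
  have h1 : (J.card : ℝ) = ∑ g ∈ range T, ((J.filter (fun x => x / K = g)).card : ℝ) := by
    have := card_eq_sum_card_fiberwise (s := J) (t := range T) (f := fun x => x / K) (by
      intro x hx
      rw [mem_coe, mem_range]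
      exact (Nat.div_lt_iff_lt_mul (by omega)).2 (hJ x hx))
    rw [this]
    push_cast
    rfl
  have h2 : ∑ g ∈ range T, fn lam (J.filter (fun x => x / K = g)).card =
      J.card - lam * ((∑ g ∈ range T, (J.filter (fun x => x / K = g)).offDiag.card : ℕ) : ℝ) := by
    rw [h1]
    push_cast
    rw [mul_sum, ← sum_sub_distrib]
    apply sum_congr rfl
    intro g _
    rw [offDiag_card]
    generalize (J.filter (fun x => x / K = g)).card = w
    unfold fn
    have : w ≤ w * w := Nat.le_mul_self w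
    rw [Nat.cast_sub this]
    push_cast
    ring
  rw [h2] at hΦ
  have h3 := inner_le K T hK J hJ
  have h4 : (((range (J.card - 1)).filter (fun e => el J e / K = el J (e + 1) / K)).card : ℝ) ≤
      ((∑ g ∈ range T, (J.filter (fun x => x / K = g)).offDiag.card : ℕ) : ℝ) := by
    exact_mod_cast h3
  have h5 : 0 ≤ lam * ((∑ g ∈ range T, (J.filter (fun x => x / K = g)).offDiag.card : ℕ) : ℝ) :=
    mul_nonneg (by linarith) (Nat.cast_nonneg _)
  have h6 := mul_le_mul_of_nonneg_left h4 (by linarith : (0 : ℝ) ≤ lam)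
  constructor
  · have : (k : ℝ) + 1 ≤ J.card := by linarith
    exact_mod_cast this
  · have : (0 : ℝ) ≤ k := Nat.cast_nonneg k
    linarith

/-- a block with few inner gaps -/
theorem good_block {k t : ℕ} {lam : ℝ} (hlam : 1 ≤ lam) (hk : 1 ≤ k) (ht : k + 1 ≤ t)
    (I : Finset ℕ) (hI : lam * I.card ≤ t) :
    ∃ e₀ : ℕ, e₀ + k < t ∧ (((Ico e₀ (e₀ + k)) ∩ I).card : ℝ) ≤ 2 * k / lam := by
  classical
  set r := (t - 1) / k with hr
  have hr1 : 1 ≤ r := by
    rw [hr]
    exact (Nat.one_le_div_iff (by omega)).2 (by omega)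
  have hr2 : r * k ≤ t - 1 := Nat.div_mul_le_self _ _
  have hr3 : t ≤ 2 * (r * k) := by
    have h1 : t - 1 < (r + 1) * k := by
      rw [hr]
      have := Nat.lt_div_mul_add (a := t - 1) (b := k) (by omega)
      rw [add_mul, one_mul]
      exact this
    have h2 : k ≤ r * k := Nat.le_mul_of_pos_left k (by omega)
    rw [add_mul, one_mul] at h1
    omega
  obtain ⟨b, hb, hmin⟩ := exists_min_image (range r)
    (fun b => ((Ico (b * k) (b * k + k)) ∩ I).card) ⟨0, mem_range.2 (by omega)⟩
  rw [mem_range] at hb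
  have hdisj : ((range r : Finset ℕ) : Set ℕ).PairwiseDisjoint
      (fun b => (Ico (b * k) (b * k + k)) ∩ I) := by
    intro b _ b' _ hbb
    rw [Function.onFun, disjoint_left]
    intro x h1 h2
    rw [mem_inter, mem_Ico] at h1 h2
    apply hbb
    rcases Nat.lt_trichotomy b b' with h | h | h
    · have : (b + 1) * k ≤ b' * k := Nat.mul_le_mul_right k h
      rw [add_mul, one_mul] at this
      omega
    · exact h
    · have : (b' + 1) * k ≤ b * k := Nat.mul_le_mul_right k h
      rw [add_mul, one_mul] at this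
      omega
  have h1 : r * ((Ico (b * k) (b * k + k)) ∩ I).card ≤ I.card := by
    have h2 : ∑ b' ∈ range r, ((Ico (b' * k) (b' * k + k)) ∩ I).card ≤ I.card := by
      rw [← card_biUnion hdisj]
      apply card_le_card
      intro x hx
      rw [mem_biUnion] at hx
      obtain ⟨b', -, hx⟩ := hx
      exact (mem_inter.1 hx).2
    have h3 := card_nsmul_le_sum (range r) (fun b' => ((Ico (b' * k) (b' * k + k)) ∩ I).card) _
      (fun b' hb' => hmin b' hb')
    rw [card_range, smul_eq_mul] at h3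
    exact h3.trans h2
  refine ⟨b * k, ?_, ?_⟩
  · have : (b + 1) * k ≤ r * k := Nat.mul_le_mul_right k hb
    rw [add_mul, one_mul] at this
    omega
  · have hl0 : 0 < lam := by linarith
    have hr0 : (0 : ℝ) < r := by exact_mod_cast hr1
    rw [le_div_iff₀ hl0]
    have h2 : (r : ℝ) * ((Ico (b * k) (b * k + k)) ∩ I).card ≤ I.card := by exact_mod_cast h1
    have h3 : (t : ℝ) ≤ 2 * (r * k) := by exact_mod_cast hr3
    have h4 : (r : ℝ) * (((Ico (b * k) (b * k + k)) ∩ I).card * lam) ≤ r * (2 * k) := by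
      calc (r : ℝ) * (((Ico (b * k) (b * k + k)) ∩ I).card * lam) =
          lam * (r * ((Ico (b * k) (b * k + k)) ∩ I).card) := by ring
        _ ≤ lam * I.card := mul_le_mul_of_nonneg_left h2 hl0.le
        _ ≤ t := hI
        _ ≤ 2 * (r * k) := h3
        _ = r * (2 * k) := by ring
    exact le_of_mul_le_mul_left h4 hr0

theorem block {T K k c N : ℕ} {lam : ℝ} (hK : 1 ≤ K) (hTN : T = N + 1) (hlam : 1 ≤ lam) (hk : 1 ≤ k)
    (hc : (c : ℝ) ≤ k - 2 * k / lam) (J : Finset ℕ) (hJ : ∀ x ∈ J, x < T * K)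
    (hΦ : (k : ℝ) + 1 ≤ ∑ g ∈ range T, fn lam (J.filter (fun x => x / K = g)).card)
    (σ : Equiv.Perm (Fin N)) (s : ℕ → ℕ) (hs : ∀ (l : ℕ) (h : l < N), s l = (σ ⟨l, h⟩ : ℕ))
    (B : ℕ) (hB : 2 ^ (T * K) ≤ B) (hB4 : 4 ≤ B) (hBN : N ≤ B) :
    ∃ e₀ : ℕ, e₀ + k < J.card ∧ ∃ π : Equiv.Perm (Fin k),
      (∀ u v : Fin k, π u < π v ↔ gp s B K J (e₀ + u) < gp s B K J (e₀ + v)) ∧
      ∃ (x : Fin c → Fin k) (y : Fin c → Fin N), StrictMono x ∧ StrictMono y ∧
        ∀ i j, σ (y i) < σ (y j) ↔ π (x i) < π (x j) := by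
  classical
  obtain ⟨ht, hI⟩ := count_inner (k := k) hK hlam J hJ hΦ
  set I := (range (J.card - 1)).filter (fun e => el J e / K = el J (e + 1) / K) with hIdef
  obtain ⟨e₀, he₀, hin⟩ := good_block hlam hk ht I hI
  refine ⟨e₀, he₀, ?_⟩
  -- injectivity of `s`
  have hsinj : ∀ l < N, ∀ l' < N, s l = s l' → l = l' := by
    intro l hl l' hl' h
    rw [hs l hl, hs l' hl'] at h
    have := σ.injective (Fin.ext h)
    simpa using this
  -- numbers
  have hlt : ∀ e, e + 1 < J.card → el J e < el J (e + 1) := fun e he => el_lt J (by omega) he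
  have hM : ∀ e < J.card, el J e < T * K := fun e he => hJ _ (el_mem J he)
  have hdiv : ∀ e < J.card, el J e / K ≤ N := by
    intro e he
    have := (Nat.div_lt_iff_lt_mul (by omega)).2 (hM e he)
    omega
  have hle : ∀ e e', e ≤ e' → e' < J.card → el J e / K ≤ el J e' / K := by
    intro e e' h1 h2
    rcases Nat.lt_or_eq_of_le h1 with h3 | h3
    · exact Nat.div_le_div_right (el_lt J h3 h2).le
    · rw [h3]
  -- the maximum point of a cross gap
  have hmax : ∀ e, ∃ m : ℕ, e + 1 < J.card → el J e / K ≠ el J (e + 1) / K →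
      el J e / K ≤ m ∧ m < el J (e + 1) / K ∧ ∀ l, el J e / K ≤ l → l < el J (e + 1) / K → s l ≤ s m := by
    intro e
    by_cases h : e + 1 < J.card ∧ el J e / K ≠ el J (e + 1) / K
    · obtain ⟨h1, h2⟩ := h
      have h3 : el J e / K < el J (e + 1) / K :=
        lt_of_le_of_ne (hle e (e + 1) (by omega) h1) h2
      obtain ⟨m, hm, hm2⟩ := exists_max_image (Ico (el J e / K) (el J (e + 1) / K)) s
        ⟨_, mem_Ico.2 ⟨le_rfl, h3⟩⟩
      rw [mem_Ico] at hm
      exact ⟨m, fun _ _ => ⟨hm.1, hm.2, fun l hl1 hl2 => hm2 l (mem_Ico.2 ⟨hl1, hl2⟩)⟩⟩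
    · exact ⟨0, fun h1 h2 => absurd ⟨h1, h2⟩ h⟩
  choose ym hym using hmax
  have hymN : ∀ e, e + 1 < J.card → el J e / K ≠ el J (e + 1) / K → ym e < N := by
    intro e h1 h2
    have := (hym e h1 h2).2.1
    have := hdiv (e + 1) h1
    omega
  have hymlt : ∀ e e', e < e' → e' + 1 < J.card → el J e / K ≠ el J (e + 1) / K →
      el J e' / K ≠ el J (e' + 1) / K → ym e < ym e' := by
    intro e e' h1 h2 h3 h4
    have h5 := (hym e (by omega) h3).2.1
    have h6 := (hym e' h2 h4).1
    have h7 := hle (e + 1) e' (by omega) (by omega)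
    omega
  -- sizes of the gaps
  have hin_gap : ∀ e, e + 1 < J.card → el J e / K = el J (e + 1) / K →
      gp s B K J e = 2 ^ el J (e + 1) - 2 ^ el J e ∧ gp s B K J e < B := by
    intro e h1 h2
    have h3 := gap_same s B K (M := T * K) (hM (e + 1) h1) h2
    exact ⟨h3.1, h3.2.trans_le hB⟩
  have hcr_gap : ∀ e, e + 1 < J.card → el J e / K ≠ el J (e + 1) / K →
      B ^ (s (ym e) + 1) ≤ gp s B K J e ∧ gp s B K J e ≤ 3 * B ^ (s (ym e) + 1) := by
    intro e h1 h2
    obtain ⟨h3, h4, h5⟩ := hym e h1 h2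
    exact gap_cross s B K (hlt e h1) (hM (e + 1) h1) (hdiv (e + 1) h1) hsinj hB hBN h3 h4 h5
  have hB1 : 1 ≤ B := by omega
  have hcr_lt : ∀ e e', e + 1 < J.card → e' + 1 < J.card → el J e / K ≠ el J (e + 1) / K →
      el J e' / K ≠ el J (e' + 1) / K → s (ym e) < s (ym e') → gp s B K J e < gp s B K J e' := by
    intro e e' h1 h2 h3 h4 h5
    have h6 := (hcr_gap e h1 h3).2
    have h7 := (hcr_gap e' h2 h4).1
    have h8 : B ^ (s (ym e) + 1 + 1) ≤ B ^ (s (ym e') + 1) := Nat.pow_le_pow_right hB1 (by omega)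
    have h9 : 0 < B ^ (s (ym e) + 1) := Nat.pow_pos (by omega)
    have h10 : 4 * B ^ (s (ym e) + 1) ≤ B ^ (s (ym e) + 1 + 1) := by
      rw [pow_succ (n := s (ym e) + 1), mul_comm]
      exact Nat.mul_le_mul_left _ hB4
    omega
  have hcr_big : ∀ e, e + 1 < J.card → el J e / K ≠ el J (e + 1) / K → B ≤ gp s B K J e := by
    intro e h1 h2
    exact (Nat.le_self_pow (by omega) B).trans (hcr_gap e h1 h2).1
  have hcr_ne : ∀ e e', e < e' → e' + 1 < J.card → el J e / K ≠ el J (e + 1) / K →
      el J e' / K ≠ el J (e' + 1) / K → s (ym e) ≠ s (ym e') := by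
    intro e e' h1 h2 h3 h4 h5
    have h6 := hymlt e e' h1 h2 h3 h4
    have h7 := hsinj _ (hymN e (by omega) h3) _ (hymN e' h2 h4) h5
    omega
  -- all gaps are distinct
  have hgp_ne : ∀ e e', e < e' → e' + 1 < J.card → gp s B K J e ≠ gp s B K J e' := by
    intro e e' h1 h2 h3
    by_cases h4 : el J e / K = el J (e + 1) / K
    · by_cases h5 : el J e' / K = el J (e' + 1) / K
      · have h6 := (hin_gap e (by omega) h4).1
        have h7 := (hin_gap e' h2 h5).1
        have h8 := two_pow_inj (hlt e (by omega)) (hlt e' h2) (by rw [← h6, ← h7, h3])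
        have h9 := el_lt J h1 (by omega)
        omega
      · have h6 := (hin_gap e (by omega) h4).2
        have h7 := hcr_big e' h2 h5
        omega
    · by_cases h5 : el J e' / K = el J (e' + 1) / K
      · have h6 := (hin_gap e' h2 h5).2
        have h7 := hcr_big e (by omega) h4
        omega
      · rcases Nat.lt_or_gt_of_ne (hcr_ne e e' h1 h2 h4 h5) with h6 | h6
        · have := hcr_lt e e' (by omega) h2 h4 h5 h6
          omega
        · have := hcr_lt e' e h2 (by omega) h5 h4 h6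
          omega
  have hinj : Function.Injective (fun u : Fin k => gp s B K J (e₀ + u)) := by
    intro u v huv
    by_contra hne
    have hne' : (u : ℕ) ≠ v := fun h => hne (Fin.ext h)
    have hu := u.2
    have hv := v.2
    rcases Nat.lt_or_gt_of_ne hne' with h | h
    · exact hgp_ne (e₀ + u) (e₀ + v) (by omega) (by omega) huv
    · exact hgp_ne (e₀ + v) (e₀ + u) (by omega) (by omega) huv.symm
  obtain ⟨π, hπ⟩ := exists_rank _ hinj
  refine ⟨π, hπ, ?_⟩
  -- the cross gaps of the block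
  set XS := (univ : Finset (Fin k)).filter
    (fun u : Fin k => ¬ el J (e₀ + u) / K = el J (e₀ + u + 1) / K) with hXS
  have hXc : c ≤ XS.card := by
    have h1 : (univ.filter (fun u : Fin k => el J (e₀ + u) / K = el J (e₀ + u + 1) / K)).card ≤
        ((Ico e₀ (e₀ + k)) ∩ I).card := by
      apply card_le_card_of_injOn (fun u : Fin k => e₀ + (u : ℕ))
      · intro u hu
        rw [mem_coe, mem_filter] at hu
        have hu2 := u.2
        have h6 := hu.2
        change e₀ + (u : ℕ) ∈ ((Ico e₀ (e₀ + k) ∩ I : Finset ℕ) : Set ℕ)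
        rw [mem_coe, mem_inter, mem_Ico, hIdef, mem_filter, mem_range]
        exact ⟨⟨by omega, by omega⟩, by omega, h6⟩
      · intro u _ v _ huv
        have : e₀ + (u : ℕ) = e₀ + v := huv
        exact Fin.ext (by omega)
    have h2 := card_filter_add_card_filter_not (s := (univ : Finset (Fin k)))
      (fun u : Fin k => el J (e₀ + u) / K = el J (e₀ + u + 1) / K)
    rw [card_univ, Fintype.card_fin] at h2
    have h3 : ((univ.filter (fun u : Fin k => el J (e₀ + u) / K = el J (e₀ + u + 1) / K)).card : ℝ) +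
        XS.card = k := by exact_mod_cast h2
    have h4 : ((univ.filter (fun u : Fin k => el J (e₀ + u) / K = el J (e₀ + u + 1) / K)).card : ℝ) ≤
        2 * k / lam := le_trans (by exact_mod_cast h1) hin
    have h5 : (c : ℝ) ≤ XS.card := by linarith
    exact_mod_cast h5
  obtain ⟨X', hX'1, hX'2⟩ := exists_subset_card_eq hXc
  set x : Fin c → Fin k := fun i => X'.orderEmbOfFin hX'2 i with hx
  have hxmono : StrictMono x := (X'.orderEmbOfFin hX'2).strictMono
  have hxcr : ∀ i, el J (e₀ + x i) / K ≠ el J (e₀ + x i + 1) / K := by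
    intro i
    have h1 : x i ∈ XS := hX'1 (orderEmbOfFin_mem X' hX'2 i)
    rw [hXS, mem_filter] at h1
    exact h1.2
  have hxlt : ∀ i, e₀ + (x i : ℕ) + 1 < J.card := by
    intro i
    have := (x i).2
    omega
  refine ⟨x, fun i => ⟨ym (e₀ + x i), hymN _ (hxlt i) (hxcr i)⟩, hxmono, ?_, ?_⟩
  · intro i j hij
    have h1 : (x i : ℕ) < x j := hxmono hij
    exact hymlt _ _ (by omega) (hxlt j) (hxcr i) (hxcr j)
  · intro i j
    rw [hπ]
    have e1 : ∀ i, (σ ⟨ym (e₀ + x i), hymN _ (hxlt i) (hxcr i)⟩ : ℕ) = s (ym (e₀ + x i)) :=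
      fun i => (hs _ _).symm
    rw [Fin.lt_def, e1 i, e1 j]
    rcases lt_trichotomy i j with h | h | h
    · have h1 : (x i : ℕ) < x j := hxmono h
      constructor
      · exact hcr_lt _ _ (hxlt i) (hxlt j) (hxcr i) (hxcr j)
      · intro h2
        by_contra h3
        have h4 := hcr_ne (e₀ + x i) (e₀ + x j) (by omega) (hxlt j) (hxcr i) (hxcr j)
        have h5 := hcr_lt _ _ (hxlt j) (hxlt i) (hxcr j) (hxcr i) (by omega)
        omega
    · subst h
      simp
    · have h1 : (x j : ℕ) < x i := hxmono h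
      constructor
      · exact hcr_lt _ _ (hxlt i) (hxlt j) (hxcr i) (hxcr j)
      · intro h2
        by_contra h3
        have h4 := hcr_ne (e₀ + x j) (e₀ + x i) (by omega) (hxlt i) (hxcr j) (hxcr i)
        have h5 := hcr_lt _ _ (hxlt j) (hxlt i) (hxcr j) (hxcr i) (by omega)
        omega

end Pool.Agent.TH779.Ord
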