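import Mathlib
import Pool.Agent.H362R2.CM.Main
import Pool.Agent.TH779.Ord.Fn

/-! Coloured Maynard-Tao theorem: almost all the classes that are hit contain exactly one prime.
The sieve estimates are those of `Pool.Agent.H362R2.CM` (helper362); the averaging is new. -/

set_option autoImplicit false

namespace Pool.Agent.TH779.Ord

open Finset Filter Topology
open Pool.Agent.H362R2.CM
open Pool.Agent.H410R2 hiding GP GP_prof GP_cut_some GP_cut_none GP_lip gg_pos gg_le_one gg_anti ee_bound ee_nonneg gg_lip LB_gg LB_ee Sums exists_sums yx wx wxi Br sum_GP_none sum_GP_some sum_GP_some_ee sum_GP_some_one sum_GPr_none sum_GPr_some S1_final QI_final S2_final w_abs_le wmax gg ee I1 I2 IE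
open Pool.Agent.H361R2.GM

theorem class_sum {κ : Type*} [DecidableEq κ] (N : Finset ℕ) (u : ℕ → ℝ)
    (C : Finset κ) (pr : κ → ℕ → Prop) [∀ i n, Decidable (pr i n)] (α γ lam : ℝ)
    (hγ : 0 ≤ γ) (hlam : 0 ≤ lam) (hS : ∀ i ∈ C, α ≤ ∑ n ∈ N, if pr i n then u n else 0)
    (hP : ∀ i ∈ C, ∀ j ∈ C, i ≠ j → (∑ n ∈ N, if pr i n ∧ pr j n then u n else 0) ≤ γ) :
    C.card * α - lam * ((C.card : ℝ) ^ 2 * γ) ≤
      ∑ n ∈ N, u n * fn lam (C.filter (fun i => pr i n)).card := by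
  classical
  set X : ℕ → ℝ := fun n => ((C.filter (fun i => pr i n)).card : ℝ) with hX
  have hXe : ∀ n, X n = ∑ i ∈ C, if pr i n then (1 : ℝ) else 0 := by
    intro n
    simp only [hX]
    rw [card_filter]
    push_cast
    rfl
  have h1 : C.card * α ≤ ∑ n ∈ N, u n * X n := by
    have e1 : ∑ n ∈ N, u n * X n = ∑ i ∈ C, ∑ n ∈ N, if pr i n then u n else 0 := by
      rw [Finset.sum_comm]
      refine Finset.sum_congr rfl fun n _ => ?_
      rw [hXe, Finset.mul_sum]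
      refine Finset.sum_congr rfl fun i _ => ?_
      split_ifs <;> simp
    rw [e1, ← nsmul_eq_mul]
    exact Finset.card_nsmul_le_sum _ _ _ hS
  have h2 : ∑ n ∈ N, u n * (X n * (X n - 1)) ≤ (C.card : ℝ) ^ 2 * γ := by
    have e1 : ∑ n ∈ N, u n * (X n * (X n - 1)) =
        ∑ i ∈ C, ∑ j ∈ C.erase i, ∑ n ∈ N, if pr i n ∧ pr j n then u n else 0 := by
      have h1 : ∀ n, u n * (X n * (X n - 1)) =
          ∑ i ∈ C, ∑ j ∈ C.erase i, if pr i n ∧ pr j n then u n else 0 := by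
        intro n
        have h3 : X n * (X n - 1) = ∑ i ∈ C, ∑ j ∈ C.erase i,
            if pr i n ∧ pr j n then (1 : ℝ) else 0 := by
          have h4 : X n * X n = ∑ i ∈ C, ∑ j ∈ C, if pr i n ∧ pr j n then (1 : ℝ) else 0 := by
            rw [hXe, Finset.sum_mul_sum]
            refine Finset.sum_congr rfl fun i _ => ?_
            refine Finset.sum_congr rfl fun j _ => ?_
            by_cases h1 : pr i n <;> by_cases h2 : pr j n <;> simp [h1, h2]
          have h5 : ∀ i ∈ C, (∑ j ∈ C, if pr i n ∧ pr j n then (1 : ℝ) else 0) =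
              (if pr i n then (1 : ℝ) else 0) +
                ∑ j ∈ C.erase i, if pr i n ∧ pr j n then (1 : ℝ) else 0 := by
            intro i hi
            rw [← Finset.add_sum_erase _ _ hi]
            congr 1
            simp
          have h6 : X n * X n = X n + ∑ i ∈ C, ∑ j ∈ C.erase i,
              if pr i n ∧ pr j n then (1 : ℝ) else 0 := by
            rw [h4, Finset.sum_congr rfl h5, Finset.sum_add_distrib, ← hXe]
          linarith
        rw [h3, Finset.mul_sum]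
        refine Finset.sum_congr rfl fun i _ => ?_
        rw [Finset.mul_sum]
        refine Finset.sum_congr rfl fun j _ => ?_
        split_ifs <;> simp
      rw [Finset.sum_congr rfl fun n _ => h1 n, Finset.sum_comm]
      refine Finset.sum_congr rfl fun i _ => ?_
      rw [Finset.sum_comm]
    rw [e1]
    have e2 : ∀ i ∈ C, ∑ j ∈ C.erase i, (∑ n ∈ N, if pr i n ∧ pr j n then u n else 0) ≤
        C.card * γ := by
      intro i hi
      have h3 : ∑ j ∈ C.erase i, (∑ n ∈ N, if pr i n ∧ pr j n then u n else 0) ≤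
          ∑ _j ∈ C.erase i, γ := by
        apply Finset.sum_le_sum
        intro j hj
        exact hP i hi j (Finset.mem_of_mem_erase hj) (Finset.ne_of_mem_erase hj).symm
      refine h3.trans ?_
      rw [Finset.sum_const, nsmul_eq_mul]
      apply mul_le_mul_of_nonneg_right _ hγ
      exact_mod_cast Finset.card_le_card (Finset.erase_subset _ _)
    refine (Finset.sum_le_sum e2).trans ?_
    rw [Finset.sum_const, nsmul_eq_mul]
    apply le_of_eq
    ring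
  have h3 : ∑ n ∈ N, u n * fn lam (C.filter (fun i => pr i n)).card =
      (∑ n ∈ N, u n * X n) - lam * ∑ n ∈ N, u n * (X n * (X n - 1)) := by
    rw [Finset.mul_sum, ← Finset.sum_sub_distrib]
    refine Finset.sum_congr rfl fun n _ => ?_
    simp only [hX, fn]
    ring
  rw [h3]
  have h4 := mul_le_mul_of_nonneg_left h2 hlam
  linarith

/-- the strict inequality at `ε = 0` -/
theorem base_few (T : ℕ) (lam : ℝ) (hT1 : 1 ≤ T) (hlam : 1 ≤ lam) :
    ∃ (K : ℕ) (Q : SPar) (ρ : ℝ), 2 ≤ K ∧ 0 < ρ ∧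
    ρ ≤ 1 / 16 ∧ 0 < Q.I1 ∧ 0 < Q.I2 ∧ 0 < Br Q (T * K) 0 ∧
    (T / (40 * lam) * (1 + 0) + 0) * Ac Q (T * K) 0 <
      T * (K * (ρ * βc Q (T * K) 0) - lam * ((K : ℝ) ^ 2 * γc Q (T * K) ρ 0)) := by
  have hT : (1 : ℝ) ≤ T := by exact_mod_cast hT1
  set s : ℝ := 7 with hs
  set A : ℝ := 1000 * T with hA
  have hs1 : 1 ≤ s := by rw [hs]; norm_num
  have hAs : 2 * s + 4 ≤ A := by rw [hs, hA]; linarith
  have hA4 : 4 ≤ A := by linarith
  obtain ⟨K', hK'⟩ := exists_nat_ge (100 * s ^ 2 * Real.exp A)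
  set K : ℕ := K' + 2 with hK
  have hKR : 100 * s ^ 2 * Real.exp A ≤ (K : ℝ) := by
    rw [hK]; push_cast; linarith
  have hK2 : 2 ≤ K := by omega
  have hK2R : (2 : ℝ) ≤ K := by exact_mod_cast hK2
  have hkK : (K : ℝ) ≤ ((T * K : ℕ) : ℝ) := by
    push_cast
    nlinarith
  obtain ⟨Q, hQG, hQc, hQl⟩ := exists_parS A s hA4 hs1 (T * K) (hKR.trans hkK)
  obtain ⟨hI1, hI2, hI2le, hBl, hBu⟩ := Br_zero_bounds A s hs1 hAs (T * K) (hKR.trans hkK) Q hQG hQc hQl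
  set k : ℕ := T * K with hk
  have hkcast : (k : ℝ) = T * K := by rw [hk]; push_cast; ring
  have hk2 : 2 ≤ k := by
    rw [hk]
    calc 2 ≤ K := hK2
      _ ≤ T * K := Nat.le_mul_of_pos_left K hT1
  have hK0 : (0 : ℝ) < K := by linarith
  have hk0 : (0 : ℝ) < k := by rw [hkcast]; positivity
  have hI1pos : 0 < Q.I1 := by rw [hI1]; positivity
  set v : ℝ := K * Q.I1 ^ 2 / Q.I2 with hv
  have hv1 : 1000 ≤ v := by
    rw [hv, le_div_iff₀ hI2, hI1]
    calc 1000 * Q.I2 ≤ 1000 * (1 / (A * k)) := by gcongr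
      _ = 1 / (T * k) := by rw [hA]; field_simp
      _ = K * (1 / (k : ℝ)) ^ 2 := by rw [hkcast]; field_simp
  have hv0 : 0 < v := by linarith
  set ρ : ℝ := 1 / (10 * lam * v) with hρ
  have hρ0 : 0 < ρ := by rw [hρ]; positivity
  have hρ1 : ρ ≤ 1 / 10000 := by
    rw [hρ]
    apply one_div_le_one_div_of_le (by norm_num)
    nlinarith
  have hρv : ρ * v = 1 / (10 * lam) := by
    rw [hρ]; field_simp
  set η : ℝ := Real.exp (-s + 2) with hη
  have hη1 : η ≤ 1 / 100 := by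
    have h1 : Real.exp 5 * η = 1 := by
      rw [hη, ← Real.exp_add, hs]
      norm_num
    have h2 : (100 : ℝ) ≤ Real.exp 5 := by
      have h3 : (2.7 : ℝ) ≤ Real.exp 1 := by
        have := Real.exp_one_gt_d9; linarith
      calc (100 : ℝ) ≤ 2.7 ^ 5 := by norm_num
        _ ≤ (Real.exp 1) ^ 5 := pow_le_pow_left₀ (by norm_num) h3 5
        _ = Real.exp 5 := by rw [← Real.exp_nat_mul]; norm_num
    have h4 : 0 < η := Real.exp_pos _
    nlinarith
  set P : ℝ := (1 / 3) * Q.I2 ^ (k - 2) with hP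
  have hP0 : 0 < P := by positivity
  have hpow1 : (1 / 3) * Q.I2 ^ (k - 1) = P * Q.I2 := by
    have : k - 1 = (k - 2) + 1 := by omega
    rw [this, pow_succ, hP]; ring
  have hpow2 : (1 / 3) * Q.I2 ^ k = P * Q.I2 ^ 2 := by
    have : k = (k - 2) + 2 := by omega
    rw [hP, mul_assoc, ← pow_add, ← this]
  set b : ℝ := Br Q k 0 / (P * Q.I2) with hb
  have hPI : 0 < P * Q.I2 := by positivity
  have hBb : Br Q k 0 = b * (P * Q.I2) := by
    rw [hb]; field_simp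
  rw [hpow1] at hBl hBu
  have hb1 : 99 / 100 ≤ b := by
    have : 1 - η ≤ b := by
      rw [hb, le_div_iff₀ hPI]; exact hBl
    linarith
  have hb0 : 0 < b := by linarith
  have hBpos : 0 < Br Q k 0 := by rw [hBb]; positivity
  refine ⟨K, Q, ρ, hK2, hρ0, by linarith, hI1pos, hI2, hBpos, ?_⟩
  have hAc : Ac Q k 0 = P * Q.I2 ^ 2 := by
    unfold Ac
    rw [← hpow2]; simp
  have hβ : βc Q k 0 = Q.I1 ^ 2 * (b * (P * Q.I2)) := by
    unfold βc
    rw [hBb]; simp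
  have hγ : γc Q k ρ 0 = ρ ^ 2 / (1 / 4 - 2 * ρ) * (Q.I1 ^ 4 * P) := by
    unfold γc
    rw [hP]; simp
  rw [hAc, hβ, hγ]
  have hq0 : 0 < 1 / 4 - 2 * ρ := by linarith
  have e1 : K * (ρ * (Q.I1 ^ 2 * (b * (P * Q.I2)))) = P * Q.I2 ^ 2 * (ρ * v * b) := by
    rw [hv]; field_simp
  have e2 : (K : ℝ) ^ 2 * (ρ ^ 2 / (1 / 4 - 2 * ρ) * (Q.I1 ^ 4 * P)) =
      P * Q.I2 ^ 2 * ((ρ * v) ^ 2 / (1 / 4 - 2 * ρ)) := by
    rw [hv]; field_simp
  rw [e1, e2, hρv]
  have hPI2 : 0 < P * Q.I2 ^ 2 := by positivity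
  have e3 : (T : ℝ) * (P * Q.I2 ^ 2 * (1 / (10 * lam) * b) -
      lam * (P * Q.I2 ^ 2 * ((1 / (10 * lam)) ^ 2 / (1 / 4 - 2 * ρ)))) =
      (T * (1 / (10 * lam) * b - lam * ((1 / (10 * lam)) ^ 2 / (1 / 4 - 2 * ρ)))) *
        (P * Q.I2 ^ 2) := by ring
  rw [e3]
  apply mul_lt_mul_of_pos_right _ hPI2
  have h5 : (1 / (10 * lam)) ^ 2 / (1 / 4 - 2 * ρ) ≤ (1 / (10 * lam)) ^ 2 * (41 / 10) := by
    rw [div_le_iff₀ hq0]
    have h6 : 1 ≤ 41 / 10 * (1 / 4 - 2 * ρ) := by linarith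
    have h7 : 0 ≤ (1 / (10 * lam)) ^ 2 := sq_nonneg _
    calc (1 / (10 * lam)) ^ 2 = (1 / (10 * lam)) ^ 2 * 1 := (mul_one _).symm
      _ ≤ (1 / (10 * lam)) ^ 2 * (41 / 10 * (1 / 4 - 2 * ρ)) := mul_le_mul_of_nonneg_left h6 h7
      _ = _ := by ring
  have hl0 : 0 < lam := by linarith
  have h8 : lam * ((1 / (10 * lam)) ^ 2 / (1 / 4 - 2 * ρ)) ≤ 41 / 1000 * (1 / lam) := by
    calc lam * ((1 / (10 * lam)) ^ 2 / (1 / 4 - 2 * ρ)) ≤
        lam * ((1 / (10 * lam)) ^ 2 * (41 / 10)) := by gcongr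
      _ = 41 / 1000 * (1 / lam) := by field_simp; norm_num
  have h9 : 99 / 1000 * (1 / lam) ≤ 1 / (10 * lam) * b := by
    calc 99 / 1000 * (1 / lam) = 1 / (10 * lam) * (99 / 100) := by field_simp; norm_num
      _ ≤ _ := by gcongr
  have hlinv : 0 < 1 / lam := by positivity
  have h10 : (T : ℝ) / (40 * lam) * (1 + 0) + 0 = T * (1 / 40 * (1 / lam)) := by
    field_simp; ring
  rw [h10]
  apply mul_lt_mul_of_pos_left _ (by linarith)
  linarith

theorem num_few (T : ℕ) (lam : ℝ) (hT1 : 1 ≤ T) (hlam : 1 ≤ lam) :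
    ∃ (K : ℕ) (Q : SPar) (ρ ε : ℝ), 2 ≤ K ∧ 0 < ρ ∧
    ρ ≤ 1 / 16 ∧ 0 < ε ∧ ε < 1 / 3 ∧ ε < Q.I1 ∧ ε < Q.I2 ∧ 0 < Br Q (T * K) ε ∧
    (T / (40 * lam) * (1 + ε) + ε) * Ac Q (T * K) ε <
      T * (K * (ρ * βc Q (T * K) ε) - lam * ((K : ℝ) ^ 2 * γc Q (T * K) ρ ε)) := by
  obtain ⟨K, Q, ρ, hK, hρ, hρ1, hI1, hI2, hB, hb⟩ := base_few T lam hT1 hlam
  have hcB : Continuous fun ε : ℝ => Br Q (T * K) ε := by
    unfold Br
    fun_prop
  have hcβ : Continuous fun ε : ℝ => βc Q (T * K) ε := by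
    unfold βc
    fun_prop
  have hcA : Continuous fun ε : ℝ => Ac Q (T * K) ε := by
    unfold Ac
    fun_prop
  have hcγ : ContinuousAt (fun ε : ℝ => γc Q (T * K) ρ ε) 0 := by
    unfold γc
    have h1 : ContinuousAt (fun ε : ℝ => (1 + ε) ^ 8 / (1 - ε) ^ 4) 0 := by
      apply ContinuousAt.div (by fun_prop) (by fun_prop)
      norm_num
    have h2 : ContinuousAt (fun ε : ℝ =>
        (Q.I1 + ε) ^ 4 * ((1 / 3 + ε) * (Q.I2 + ε) ^ (T * K - 2))) 0 := by fun_prop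
    exact (continuousAt_const.mul h1).mul h2
  have hc1 : ContinuousAt (fun ε : ℝ => (T / (40 * lam) * (1 + ε) + ε) * Ac Q (T * K) ε) 0 :=
    ContinuousAt.mul (by fun_prop) hcA.continuousAt
  have hc2 : ContinuousAt (fun ε : ℝ => (T : ℝ) * (K * (ρ * βc Q (T * K) ε) -
      lam * ((K : ℝ) ^ 2 * γc Q (T * K) ρ ε))) 0 :=
    continuousAt_const.mul
      ((continuousAt_const.mul (continuousAt_const.mul hcβ.continuousAt)).sub
        (continuousAt_const.mul (continuousAt_const.mul hcγ)))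
  have hev : ∀ᶠ ε : ℝ in 𝓝 0, (T / (40 * lam) * (1 + ε) + ε) * Ac Q (T * K) ε <
      (T : ℝ) * (K * (ρ * βc Q (T * K) ε) - lam * ((K : ℝ) ^ 2 * γc Q (T * K) ρ ε)) :=
    hc1.tendsto.eventually_lt hc2.tendsto hb
  have hev1 : ∀ᶠ ε : ℝ in 𝓝 0, ε < 1 / 3 := gt_mem_nhds (by norm_num)
  have hev2 : ∀ᶠ ε : ℝ in 𝓝 0, ε < Q.I1 := gt_mem_nhds hI1
  have hev3 : ∀ᶠ ε : ℝ in 𝓝 0, ε < Q.I2 := gt_mem_nhds hI2
  have hev4 : ∀ᶠ ε : ℝ in 𝓝 0, 0 < Br Q (T * K) ε := by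
    have := hcB.tendsto (0 : ℝ)
    exact this.eventually (lt_mem_nhds hB)
  have hall := ((hev.and (hev1.and (hev2.and (hev3.and hev4)))).filter_mono
    (nhdsWithin_le_nhds (s := Set.Ioi (0 : ℝ)))).and (self_mem_nhdsWithin (s := Set.Ioi (0 : ℝ)))
  obtain ⟨ε, ⟨h1, h2, h3, h4, h5⟩, h6⟩ := hall.exists
  exact ⟨K, Q, ρ, ε, hK, hρ, hρ1, h6, h2, h3, h4, h5, h1⟩

end Pool.Agent.TH779.Ord
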