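import Mathlib
import Pool.Agent.TH779.Ord.Core
import Pool.Agent.TH779.Shat.Trace
import Pool.Agent.H362R2.CM.Final

/-! Exact patterns of primes among prescribed shifts, with few repetitions inside the classes. -/

set_option autoImplicit false

namespace Pool.Agent.TH779.Ord

open Finset

/-- natural forms, indexed by natural numbers; the class of `x` is `x / K` -/
theorem few_nat (T : ℕ) (lam : ℝ) (hTp : 1 ≤ T) (hlam : 1 ≤ lam) :
    ∃ K : ℕ, 2 ≤ K ∧ ∀ (a b : ℕ → ℕ), (∀ x < T * K, 1 ≤ a x) →
      (∀ x < T * K, ∀ y < T * K, a x = a y → b x = b y → x = y) →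
      (∀ p : ℕ, p.Prime → ∃ n : ℕ, ∀ x < T * K, ¬ p ∣ a x * n + b x) →
      ∀ N0 : ℕ, ∃ n, N0 < n ∧ (T : ℝ) / (40 * lam) ≤ ∑ g ∈ range T,
        fn lam ((range (T * K)).filter (fun x => x / K = g ∧ (a x * n + b x).Prime)).card := by
  classical
  obtain ⟨K, hK, hcore⟩ := core_few T lam hTp hlam
  refine ⟨K, hK, ?_⟩
  intro a b ha hinj hadm N0
  set A : Fin (T * K) → ℕ := fun i => a i with hA
  obtain ⟨N, b', hbz, hb1, hnp, hadm'⟩ := Pool.Agent.H362R2.CM.shift_forms A (fun i => (b i : ℤ))
    (fun i => ha i i.2)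
    (by
      intro i j hij
      simp only [Prod.mk.injEq] at hij
      exact Fin.ext (hinj i i.2 j j.2 hij.1 (by exact_mod_cast hij.2)))
    (by
      intro p hp
      obtain ⟨n, hn⟩ := hadm p hp
      refine ⟨n, fun i h => hn i i.2 ?_⟩
      exact_mod_cast h)
  have hb' : ∀ i, b' i = A i * N + b i := by
    intro i
    have := hbz i
    exact_mod_cast this
  have hcl : ∀ i : Fin (T * K), (i : ℕ) / K < T := fun i =>
    (Nat.div_lt_iff_lt_mul (by omega)).2 i.2
  set cl : Fin (T * K) → Fin T := fun i => ⟨(i : ℕ) / K, hcl i⟩ with hcldef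
  have hcard : ∀ g, (univ.filter (fun i => cl i = g)).card = K := by
    intro g
    have h1 : (univ.filter (fun i => cl i = g)).card = (Ico ((g : ℕ) * K) (g * K + K)).card := by
      apply card_bij (fun (i : Fin (T * K)) _ => (i : ℕ))
      · intro i hi
        rw [mem_filter] at hi
        have h2 : (i : ℕ) / K = g := congrArg Fin.val hi.2
        rw [mem_Ico]
        have h3 := Nat.div_add_mod (i : ℕ) K
        rw [h2] at h3
        have h4 := Nat.mod_lt (i : ℕ) (show 0 < K by omega)
        rw [mul_comm] at h3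
        omega
      · intro i _ j _ h
        exact Fin.ext h
      · intro x hx
        rw [mem_Ico] at hx
        have h2 : (g : ℕ) * K + K ≤ T * K := by
          have := Nat.mul_le_mul_right K (Nat.succ_le_of_lt g.2)
          rw [Nat.succ_mul] at this
          exact this
        refine ⟨⟨x, by omega⟩, ?_, rfl⟩
        rw [mem_filter]
        refine ⟨mem_univ _, ?_⟩
        rw [hcldef]
        apply Fin.ext
        simp only
        exact Nat.div_eq_of_lt_le hx.1 (by rw [Nat.succ_mul]; exact hx.2)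
    rw [h1, Nat.card_Ico]
    omega
  obtain ⟨n, hn1, hn2⟩ := hcore A b' cl hcard (fun i => ha i i.2) hb1 hnp hadm' N0
  refine ⟨n + N, by omega, hn2.trans (le_of_eq ?_)⟩
  rw [← Fin.sum_univ_eq_sum_range (fun g => fn lam ((range (T * K)).filter
    (fun x => x / K = g ∧ (a x * (n + N) + b x).Prime)).card) T]
  apply sum_congr rfl
  intro g _
  congr 1
  apply card_bij (fun (i : Fin (T * K)) _ => (i : ℕ))
  · intro i hi
    rw [mem_filter] at hi
    rw [mem_filter, mem_range]
    refine ⟨i.2, congrArg Fin.val hi.2.1, ?_⟩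
    have h3 : a i * (n + N) + b i = A i * n + b' i := by
      rw [hb' i, hA]; ring
    rw [h3]
    exact hi.2.2
  · intro i _ j _ h
    exact Fin.ext h
  · intro x hx
    rw [mem_filter, mem_range] at hx
    obtain ⟨h1, h2, h3⟩ := hx
    refine ⟨⟨x, h1⟩, ?_, rfl⟩
    rw [mem_filter]
    refine ⟨mem_univ _, Fin.ext h2, ?_⟩
    have h4 : A ⟨x, h1⟩ * n + b' ⟨x, h1⟩ = a x * (n + N) + b x := by
      rw [hb', hA]; ring
    rw [h4]
    exact h3

/-- exact patterns among prescribed shifts `q h x`, `x < T K`, in one class modulo `q` -/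
theorem exact_few (T : ℕ) (lam : ℝ) (hTp : 1 ≤ T) (hlam : 1 ≤ lam) :
    ∃ K : ℕ, 2 ≤ K ∧ ∀ (q a : ℕ), 1 ≤ q → Nat.Coprime a q → ∀ h : ℕ → ℕ,
      (∀ x < T * K, ∀ y < T * K, h x = h y → x = y) →
      (∀ p : ℕ, p.Prime → ∃ r : ℕ, ∀ x < T * K, ¬ p ∣ r + h x) →
      ∃ J : Finset ℕ, (∀ x ∈ J, x < T * K) ∧ (T : ℝ) / (40 * lam) ≤
        ∑ g ∈ range T, fn lam (J.filter (fun x => x / K = g)).card ∧
        {n : ℕ | n ≡ a [MOD q] ∧ (∀ x ∈ J, (n + q * h x).Prime) ∧
          ∀ y : ℕ, (∃ x < T * K, y ≤ q * h x) → (n + y).Prime → ∃ x ∈ J, y = q * h x}.Infinite := by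
  classical
  obtain ⟨K, hK, hmain⟩ := few_nat T lam hTp hlam
  refine ⟨K, hK, ?_⟩
  intro q a hq haq h hinj hadm
  set M := T * K with hM
  set D := (range M).sup h with hD
  have hxD : ∀ x < M, h x ≤ D := fun x hx => le_sup (f := h) (mem_range.2 hx)
  -- forms for all the positions
  set ι := Fin (q * D + 1) with hι
  set S : Finset ι := univ.filter (fun j => ∃ x < M, q * h x = (j : ℕ)) with hS
  obtain ⟨W, ν, hW, hE, hSp⟩ := Pool.Agent.TH779.Shat.congruences (fun _ : ι => q)
    (fun j : ι => a + (j : ℕ)) (fun _ => hq)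
    (by
      intro i j hij h1
      have h2 := Nat.eq_of_mul_eq_mul_left hq h1
      exact hij (Fin.ext (by omega))) S Sᶜ disjoint_compl_left
  have hpos : ∀ x, x < M → q * h x < q * D + 1 := fun x hx => by
    have := Nat.mul_le_mul_left q (hxD x hx)
    omega
  have hfew := hmain (fun _ => q * W) (fun x => q * ν + (a + q * h x))
    (fun _ _ => Nat.mul_pos hq hW)
    (by
      intro x hx y hy _ h2
      apply hinj x hx y hy
      have h3 : q * h x = q * h y := by
        have h2' : q * ν + (a + q * h x) = q * ν + (a + q * h y) := h2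
        omega
      exact Nat.eq_of_mul_eq_mul_left hq h3)
    (by
      intro p hp
      by_cases hpW : p ∣ q * W
      · refine ⟨0, fun x hx hd => ?_⟩
        rw [mul_zero, zero_add] at hd
        rcases (Nat.Prime.dvd_mul hp).1 hpW with h1 | h1
        · have h2 : p ∣ a := by
            have h3 : p ∣ q * ν := h1.mul_right _
            have h4 : p ∣ a + q * h x := (Nat.dvd_add_right h3).1 hd
            exact (Nat.dvd_add_left (h1.mul_right _)).1 h4
          have h3 : p ∣ 1 := by
            rw [← haq]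
            exact Nat.dvd_gcd h2 h1
          exact hp.one_lt.ne' (Nat.dvd_one.1 h3)
        · exact hSp p hp h1 ⟨q * h x, hpos x hx⟩ (by
            rw [hS, mem_filter]
            exact ⟨mem_univ _, x, hx, rfl⟩) hd
      · obtain ⟨r, hr⟩ := hadm p hp
        have : Fact p.Prime := ⟨hp⟩
        have hpq : ¬ p ∣ q := fun h => hpW (h.mul_right _)
        have hpW' : ¬ p ∣ W := fun h => hpW (h.mul_left _)
        have hqZ : (q : ZMod p) ≠ 0 := fun h => hpq ((ZMod.natCast_eq_zero_iff _ _).1 h)
        have hWZ : (W : ZMod p) ≠ 0 := fun h => hpW' ((ZMod.natCast_eq_zero_iff _ _).1 h)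
        refine ⟨(((r : ZMod p) - a / q - ν) / W).val, fun x hx hd => ?_⟩
        rw [← ZMod.natCast_eq_zero_iff] at hd
        push_cast at hd
        rw [ZMod.natCast_zmod_val] at hd
        apply hr x hx
        rw [← ZMod.natCast_eq_zero_iff]
        push_cast
        have h1 : (q : ZMod p) * ((r : ZMod p) + h x) = 0 := by
          rw [← hd]
          field_simp
          ring
        exact (mul_eq_zero.1 h1).resolve_left hqZ)
  -- the pattern at `t`
  set Jt : ℕ → Finset ℕ := fun t =>
    (range M).filter (fun x => (q * W * t + (q * ν + (a + q * h x))).Prime) with hJt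
  set Sset : Set ℕ := {t : ℕ | 2 ≤ t ∧ (T : ℝ) / (40 * lam) ≤
    ∑ g ∈ range T, fn lam ((Jt t).filter (fun x => x / K = g)).card} with hSset
  have hinf : Sset.Infinite := by
    rw [Set.infinite_iff_exists_gt]
    intro N0
    obtain ⟨t, ht1, ht2⟩ := hfew (N0 + 2)
    refine ⟨t, ⟨by omega, ht2.trans (le_of_eq ?_)⟩, by omega⟩
    apply sum_congr rfl
    intro g _
    congr 2
    ext x
    simp only [hJt, mem_filter, mem_range]
    tauto
  have hcover : Sset ⊆ ⋃ J : Set.Elem (((range M).powerset : Finset (Finset ℕ)) : Set (Finset ℕ)),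
      {t ∈ Sset | Jt t = J.1} := by
    intro t ht
    rw [Set.mem_iUnion]
    refine ⟨⟨Jt t, ?_⟩, ht, rfl⟩
    rw [mem_coe, mem_powerset]
    exact filter_subset _ _
  have : ∃ J : Finset ℕ, {t ∈ Sset | Jt t = J}.Infinite := by
    by_contra hcon
    push Not at hcon
    apply hinf
    apply Set.Finite.subset _ hcover
    exact Set.finite_iUnion (fun J => hcon J.1)
  obtain ⟨J, hJ⟩ := this
  obtain ⟨t₀, ht₀⟩ := hJ.nonempty
  have hJM : ∀ x ∈ J, x < M := by
    intro x hx
    rw [← ht₀.2, hJt] at hx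
    exact mem_range.1 (mem_filter.1 hx).1
  refine ⟨J, hJM, ?_, ?_⟩
  · have := ht₀.1.2
    rw [ht₀.2] at this
    exact this
  · have hinj' : Set.InjOn (fun t : ℕ => q * W * t + (q * ν + a)) {t ∈ Sset | Jt t = J} := by
      intro t _ t' _ e
      have e' : q * W * t = q * W * t' := by
        simp only at e
        omega
      exact Nat.eq_of_mul_eq_mul_left (Nat.mul_pos hq hW) e'
    apply (hJ.image hinj').mono
    rintro _ ⟨t, ⟨ht1, ht2⟩, rfl⟩
    refine ⟨?_, ?_, ?_⟩
    · have h1 : q * W * t + (q * ν + a) = a + q * (W * t + ν) := by ring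
      simp only
      rw [h1]
      exact (Nat.modEq_iff_dvd' (by omega)).2 ⟨W * t + ν, by omega⟩ |>.symm
    · intro x hx
      rw [← ht2, hJt, mem_filter] at hx
      have h1 : q * W * t + (q * ν + a) + q * h x = q * W * t + (q * ν + (a + q * h x)) := by ring
      simp only
      rw [h1]
      exact hx.2
    · rintro y ⟨x, hx, hy⟩ hp
      simp only at hp
      have hyD : y < q * D + 1 := hy.trans_lt (hpos x hx)
      by_cases hyS : (⟨y, hyD⟩ : ι) ∈ S
      · rw [hS, mem_filter] at hyS
        obtain ⟨-, x', hx', he⟩ := hyS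
        simp only at he
        refine ⟨x', ?_, he.symm⟩
        rw [← ht2, hJt, mem_filter, mem_range]
        refine ⟨hx', ?_⟩
        rw [he]
        have h1 : q * W * t + (q * ν + a) + y = q * W * t + (q * ν + (a + y)) := by ring
        rw [← h1]
        exact hp
      · exfalso
        obtain ⟨p, hp1, hp2, hp3⟩ := hE ⟨y, hyD⟩ (mem_compl.2 hyS)
        have h1 : p ∣ q * W * t + (q * ν + a) + y := by
          have h2 : q * W * t + (q * ν + a) + y = W * (q * t) + (q * ν + (a + y)) := by ring
          rw [h2]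
          exact dvd_add (hp2.mul_right _) hp3
        have h2 : p = q * W * t + (q * ν + a) + y := (Nat.prime_dvd_prime_iff_eq hp1 hp).1 h1
        have h3 : p ≤ W := Nat.le_of_dvd hW hp2
        have h4 : 2 ≤ t := ht1.1
        have h5 : W * 2 ≤ q * W * t := by
          calc W * 2 ≤ W * t := Nat.mul_le_mul_left _ h4
            _ = 1 * W * t := by ring
            _ ≤ q * W * t := Nat.mul_le_mul_right _ (Nat.mul_le_mul_right _ hq)
        omega

end Pool.Agent.TH779.Ord
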