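import Mathlib
import Pool.Agent.TH779.Ord.Exact
import Pool.Agent.TH779.Ord.Block
import Pool.Agent.TH779.Ord.Count

/-! Orders of consecutive prime gaps. -/

set_option autoImplicit false

namespace Pool.Agent.TH779.Ord

open Finset

/-- a block of hits is a block of consecutive primes -/
theorem nth_block (n k : ℕ) (r : ℕ → ℕ) (hr : ∀ i j, i < j → j ≤ k → r i < r j)
    (hp : ∀ i ≤ k, (n + r i).Prime)
    (hno : ∀ y, r 0 ≤ y → y ≤ r k → (n + y).Prime → ∃ i ≤ k, y = r i) :
    ∃ m : ℕ, ∀ i ≤ k, Nat.nth Nat.Prime (m + i) = n + r i := by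
  have hinf : (Set.ofPred Nat.Prime).Infinite := Nat.infinite_setOfPred_prime
  have hle : ∀ i j, i ≤ j → j ≤ k → r i ≤ r j := by
    intro i j hij hj
    rcases Nat.lt_or_eq_of_le hij with h | h
    · exact (hr i j h hj).le
    · rw [h]
  refine ⟨Nat.count Nat.Prime (n + r 0), fun i => ?_⟩
  induction i with
  | zero =>
    intro _
    rw [add_zero]
    exact Nat.nth_count (hp 0 (Nat.zero_le _))
  | succ i ih =>
    intro hi
    have h1 := ih (by omega)
    set m := Nat.count Nat.Prime (n + r 0) with hm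
    have h2 : Nat.nth Nat.Prime (m + i) < Nat.nth Nat.Prime (m + (i + 1)) :=
      Nat.nth_strictMono hinf (by omega)
    have h3 : Nat.nth Nat.Prime (Nat.count Nat.Prime (n + r (i + 1))) = n + r (i + 1) :=
      Nat.nth_count (hp (i + 1) hi)
    have h4 : m + i < Nat.count Nat.Prime (n + r (i + 1)) := by
      have := hr i (i + 1) (by omega) hi
      rw [← (Nat.nth_strictMono hinf).lt_iff_lt, h3, h1]
      omega
    have h5 : Nat.nth Nat.Prime (m + (i + 1)) ≤ n + r (i + 1) := by
      rw [← h3]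
      exact (Nat.nth_strictMono hinf).monotone (by omega)
    have h6 : (Nat.nth Nat.Prime (m + (i + 1))).Prime := Nat.prime_nth_prime _
    rw [h1] at h2
    obtain ⟨y, hy⟩ : ∃ y, Nat.nth Nat.Prime (m + (i + 1)) = n + y :=
      ⟨Nat.nth Nat.Prime (m + (i + 1)) - n, by omega⟩
    rw [hy] at h2 h5 h6 ⊢
    have h7 : r 0 ≤ r i := hle 0 i (Nat.zero_le _) (by omega)
    have h8 : r (i + 1) ≤ r k := hle (i + 1) k hi le_rfl
    obtain ⟨j, hj, hyj⟩ := hno y (by omega) (by omega) h6
    rcases lt_trichotomy j (i + 1) with h | h | h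
    · have := hle j i (by omega) (by omega)
      omega
    · rw [hyj, h]
    · have := hr (i + 1) j h hj
      omega

/-- the orders of `k` consecutive prime gaps, all the primes in the class of `a` modulo `q`,
which occur infinitely often -/
def PS (q a k : ℕ) : Set (Equiv.Perm (Fin k)) :=
  {π | ∀ N0 : ℕ, ∃ n > N0, (∀ i ≤ k, Nat.nth Nat.Prime (n + i) ≡ a [MOD q]) ∧
    ∀ i j : Fin k, π i < π j ↔
      Nat.nth Nat.Prime (n + i + 1) - Nat.nth Nat.Prime (n + i) <
        Nat.nth Nat.Prime (n + j + 1) - Nat.nth Nat.Prime (n + j)}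

theorem adm_fact (M : ℕ) (g : ℕ → ℕ) (p : ℕ) (hp : p.Prime) :
    ∃ r : ℕ, ∀ x < M, ¬ p ∣ r + (M + 1).factorial * g x := by
  classical
  by_cases h : p ≤ M + 1
  · refine ⟨1, fun x _ hd => ?_⟩
    have h1 : p ∣ (M + 1).factorial * g x := ((Nat.Prime.dvd_factorial hp).2 h).mul_right _
    exact hp.one_lt.ne' (Nat.dvd_one.1 ((Nat.dvd_add_left h1).1 hd))
  · have : Fact p.Prime := ⟨hp⟩
    set I : Finset (ZMod p) := (range M).image
      (fun x => -(((M + 1).factorial * g x : ℕ) : ZMod p)) with hI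
    have hcard : I.card < (univ : Finset (ZMod p)).card := by
      rw [card_univ, ZMod.card]
      calc I.card ≤ (range M).card := card_image_le
        _ = M := card_range M
        _ < p := by omega
    obtain ⟨r, _, hr⟩ := exists_mem_notMem_of_card_lt_card hcard
    refine ⟨r.val, fun x hx hd => hr ?_⟩
    rw [hI, mem_image]
    refine ⟨x, mem_range.2 hx, ?_⟩
    rw [← ZMod.natCast_eq_zero_iff] at hd
    rw [Nat.cast_add, ZMod.natCast_zmod_val] at hd
    exact (eq_neg_of_add_eq_zero_left hd).symm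

/-- the main step -/
theorem perm_many {k c N : ℕ} {lam : ℝ} (hlam : 1 ≤ lam) (hk : 1 ≤ k)
    (hc : (c : ℝ) ≤ k - 2 * k / lam) (hN : (k : ℝ) + 1 ≤ ((N + 1 : ℕ) : ℝ) / (40 * lam))
    (q a : ℕ) (hq : 1 ≤ q) (haq : Nat.Coprime a q) :
    c.factorial ≤ (PS q a k).ncard * 2 ^ (k + N) := by
  classical
  obtain ⟨K, hK, hex⟩ := exact_few (N + 1) lam (by omega) hlam
  have hfin : (PS q a k).Finite := Set.toFinite _
  rw [Set.ncard_eq_toFinset_card _ hfin]
  apply patterns_many
  intro σ
  set s : ℕ → ℕ := fun l => if h : l < N then (σ ⟨l, h⟩ : ℕ) else 0 with hs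
  have hs' : ∀ (l : ℕ) (h : l < N), s l = (σ ⟨l, h⟩ : ℕ) := by
    intro l h
    rw [hs]
    simp only [h, dite_true]
  set M := (N + 1) * K with hM
  set B := 2 ^ M + N + 4 with hB
  have hmono : StrictMono (hh s B K) := hh_strictMono s B K
  set F := (M + 1).factorial with hF
  have hF0 : 0 < F := Nat.factorial_pos _
  obtain ⟨J, hJ1, hJ2, hJ3⟩ := hex q a hq haq (fun x => F * hh s B K x)
    (by
      intro x _ y _ h
      exact hmono.injective (Nat.eq_of_mul_eq_mul_left hF0 h))
    (fun p hp => adm_fact M (hh s B K) p hp)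
  obtain ⟨e₀, he₀, π, hπ, x, y, hx, hy, hxy⟩ := block (by omega : 1 ≤ K) rfl hlam hk hc J hJ1
    (hN.trans hJ2) σ s hs' B (by rw [hB, ← hM, add_assoc]; exact Nat.le_add_right _ _)
    (by rw [hB]; exact Nat.le_add_left _ _)
    (by rw [hB]; exact (Nat.le_add_left N (2 ^ M)).trans (Nat.le_add_right _ _))
  refine ⟨π, ?_, x, y, hx, hy, hxy⟩
  rw [Set.Finite.mem_toFinset]
  intro N0
  obtain ⟨n, ⟨hn1, hn2, hn3⟩, hn4⟩ := hJ3.exists_gt (Nat.nth Nat.Prime N0)
  set r : ℕ → ℕ := fun i => q * (F * hh s B K (el J (e₀ + i))) with hr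
  have hqF : ∀ u v : ℕ, u < v → q * (F * u) < q * (F * v) := fun u v h =>
    Nat.mul_lt_mul_of_pos_left (Nat.mul_lt_mul_of_pos_left h hF0) hq
  have hrlt : ∀ i j, i < j → j ≤ k → r i < r j := by
    intro i j hij hj
    exact hqF _ _ (hmono (el_lt J (by omega) (by omega)))
  obtain ⟨m, hm⟩ := nth_block n k r hrlt
    (fun i hi => hn2 _ (el_mem J (by omega)))
    (by
      intro z hz1 hz2 hz3
      obtain ⟨w, hw, hzw⟩ := hn3 z ⟨el J (e₀ + k), hJ1 _ (el_mem J he₀), hz2⟩ hz3
      obtain ⟨e, he, hew⟩ := el_surj J hw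
      rw [← hew] at hzw
      have h1 : e₀ ≤ e := by
        by_contra hcon
        push Not at hcon
        have := hqF _ _ (hmono (el_lt J hcon (by omega)))
        have h2 : r 0 = q * (F * hh s B K (el J e₀)) := rfl
        omega
      have h2 : e ≤ e₀ + k := by
        by_contra hcon
        push Not at hcon
        have := hqF _ _ (hmono (el_lt J hcon he))
        have h2 : r k = q * (F * hh s B K (el J (e₀ + k))) := rfl
        omega
      refine ⟨e - e₀, by omega, ?_⟩
      rw [hzw, hr]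
      simp only
      rw [Nat.add_sub_cancel' h1])
  have hinf : (Set.ofPred Nat.Prime).Infinite := Nat.infinite_setOfPred_prime
  refine ⟨m, ?_, ?_, ?_⟩
  · have h1 := hm 0 (Nat.zero_le _)
    rw [add_zero] at h1
    have h2 : Nat.nth Nat.Prime N0 < Nat.nth Nat.Prime m := by
      rw [h1]
      omega
    exact (Nat.nth_strictMono hinf).lt_iff_lt.1 h2
  · intro i hi
    rw [hm i hi]
    have h1 : n + r i ≡ a + 0 [MOD q] := Nat.ModEq.add hn1
      ((Nat.modEq_zero_iff_dvd).2 (Dvd.intro _ rfl))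
    rwa [add_zero] at h1
  · have hgap : ∀ i : Fin k, Nat.nth Nat.Prime (m + i + 1) - Nat.nth Nat.Prime (m + i) =
        q * (F * gp s B K J (e₀ + i)) := by
      intro i
      have h1 := hm i i.2.le
      have h2 := hm (i + 1) i.2
      rw [← add_assoc] at h2
      rw [h1, h2]
      have h3 : r i = q * (F * hh s B K (el J (e₀ + i))) := rfl
      have h4 : r (i + 1) = q * (F * hh s B K (el J (e₀ + i + 1))) := rfl
      rw [h3, h4]
      unfold gp
      rw [Nat.mul_sub, Nat.mul_sub]
      omega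
    intro i j
    rw [hgap i, hgap j, hπ i j]
    constructor
    · intro h
      exact hqF _ _ h
    · intro h
      exact Nat.lt_of_mul_lt_mul_left (Nat.lt_of_mul_lt_mul_left h)

end Pool.Agent.TH779.Ord
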