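import Mathlib
import Pool.Agent.TH779.Ord.Main

/-! Asymptotic form. -/

set_option autoImplicit false

namespace Pool.Agent.TH779.Ord

open Finset Filter

theorem fact_le {c k : ℕ} (h : c ≤ k) : k.factorial ≤ c.factorial * k ^ (k - c) := by
  obtain ⟨d, rfl⟩ := Nat.exists_eq_add_of_le h
  rw [Nat.add_sub_cancel_left, ← Nat.factorial_mul_ascFactorial]
  exact Nat.mul_le_mul_left _ (Nat.ascFactorial_le_pow_add c d)

theorem card_le (q a k : ℕ) : (PS q a k).ncard ≤ k.factorial := by
  classical
  have h1 : (PS q a k).ncard ≤ (Set.univ : Set (Equiv.Perm (Fin k))).ncard :=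
    Set.ncard_le_ncard (Set.subset_univ _) (Set.toFinite _)
  rwa [Set.ncard_univ, Nat.card_eq_fintype_card, Fintype.card_perm, Fintype.card_fin] at h1

theorem log_bound {k : ℕ} {lam : ℝ} (hlam : 2 ≤ lam) (hk : 1 ≤ k) (q a : ℕ) (hq : 1 ≤ q)
    (haq : Nat.Coprime a q) :
    1 ≤ (PS q a k).ncard ∧
    Real.log k.factorial ≤ Real.log (PS q a k).ncard + (2 * k / lam + 1) * Real.log k +
      (k + 40 * lam * (k + 1) + 1) * Real.log 2 := by
  have hk1 : (1 : ℝ) ≤ k := by exact_mod_cast hk
  have hlam0 : (0 : ℝ) < lam := by linarith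
  set N := ⌈40 * lam * ((k : ℝ) + 1)⌉₊ with hNd
  set c := ⌊(k : ℝ) - 2 * k / lam⌋₊ with hcd
  have h0 : 0 ≤ (k : ℝ) - 2 * k / lam := by
    have : 2 * k / lam ≤ (k : ℝ) := by
      rw [div_le_iff₀ hlam0]
      nlinarith
    linarith
  have hc : (c : ℝ) ≤ k - 2 * k / lam := Nat.floor_le h0
  have hc2 : (k : ℝ) - 2 * k / lam < c + 1 := Nat.lt_floor_add_one _
  have hN1 : 40 * lam * ((k : ℝ) + 1) ≤ N := Nat.le_ceil _
  have hN2 : (N : ℝ) < 40 * lam * ((k : ℝ) + 1) + 1 := Nat.ceil_lt_add_one (by positivity)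
  have hck : c ≤ k := by
    have h1 : 0 ≤ 2 * (k : ℝ) / lam := by positivity
    have : (c : ℝ) ≤ k := by linarith
    exact_mod_cast this
  have hmain := perm_many (k := k) (c := c) (N := N) (lam := lam) (by linarith) hk hc (by
    rw [le_div_iff₀ (by positivity)]
    push_cast
    nlinarith) q a hq haq
  have hP : 1 ≤ (PS q a k).ncard := by
    by_contra hcon
    push Not at hcon
    have h1 : (PS q a k).ncard = 0 := by omega
    rw [h1, zero_mul] at hmain
    exact absurd (Nat.factorial_pos c) (by omega)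
  refine ⟨hP, ?_⟩
  have hP' : (0 : ℝ) < (PS q a k).ncard := by exact_mod_cast hP
  have h1 : Real.log c.factorial ≤ Real.log (PS q a k).ncard + (k + N) * Real.log 2 := by
    have h2 : (c.factorial : ℝ) ≤ (PS q a k).ncard * 2 ^ (k + N) := by exact_mod_cast hmain
    have h3 := Real.log_le_log (by exact_mod_cast Nat.factorial_pos c) h2
    rw [Real.log_mul hP'.ne' (by positivity), Real.log_pow] at h3
    push_cast at h3
    exact h3
  have h2 : Real.log k.factorial ≤ Real.log c.factorial + (k - c) * Real.log k := by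
    have h3 : (k.factorial : ℝ) ≤ c.factorial * (k : ℝ) ^ (k - c) := by exact_mod_cast fact_le hck
    have h4 := Real.log_le_log (by exact_mod_cast Nat.factorial_pos k) h3
    have hcf : (0 : ℝ) < c.factorial := by exact_mod_cast Nat.factorial_pos c
    rw [Real.log_mul hcf.ne' (by positivity), Real.log_pow, Nat.cast_sub hck] at h4
    exact h4
  have hlogk : 0 ≤ Real.log k := Real.log_nonneg hk1
  have hlog2 : 0 ≤ Real.log 2 := Real.log_nonneg (by norm_num)
  have h3 : ((k : ℝ) - c) * Real.log k ≤ (2 * k / lam + 1) * Real.log k :=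
    mul_le_mul_of_nonneg_right (by linarith) hlogk
  have h4 : ((k : ℝ) + N) * Real.log 2 ≤ (k + 40 * lam * (k + 1) + 1) * Real.log 2 :=
    mul_le_mul_of_nonneg_right (by linarith) hlog2
  linarith

/-- the explicit form -/
theorem explicit {k : ℕ} (hk : 1 ≤ k) (q a : ℕ) (hq : 1 ≤ q) (haq : Nat.Coprime a q) :
    (k.factorial : ℝ) * Real.exp (-(150 * k * Real.sqrt (Real.log k))) ≤ (PS q a k).ncard := by
  have hk1 : (1 : ℝ) ≤ k := by exact_mod_cast hk
  set L := Real.log k with hL
  have hL0 : 0 ≤ L := Real.log_nonneg hk1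
  set s := Real.sqrt L with hs
  have hs0 : 0 ≤ s := Real.sqrt_nonneg _
  have hsL : s * s = L := Real.mul_self_sqrt hL0
  obtain ⟨hP, hb1⟩ := log_bound (k := k) (lam := 2 + s) (by linarith) hk q a hq haq
  have hP' : (0 : ℝ) < (PS q a k).ncard := by exact_mod_cast hP
  rcases Nat.lt_or_ge k 2 with h2 | h2
  · have h3 : k = 1 := by omega
    subst h3
    have h4 : L = 0 := by rw [hL, Nat.cast_one, Real.log_one]
    have h5 : s = 0 := by rw [hs, h4, Real.sqrt_zero]
    rw [h5, mul_zero, neg_zero, Real.exp_zero, mul_one, Nat.factorial_one]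
    exact_mod_cast hP
  · have hk2 : (2 : ℝ) ≤ k := by exact_mod_cast h2
    have hlog2 : Real.log 2 < 0.6932 := by
      have := Real.log_two_lt_d9
      linarith
    have hlog2' : 0.69 < Real.log 2 := by
      have := Real.log_two_gt_d9
      linarith
    have hL2 : 0.69 < L := hlog2'.trans_le (Real.log_le_log (by norm_num) hk2)
    have hs1 : 0.83 ≤ s := by
      rw [hs]
      apply Real.le_sqrt_of_sq_le
      norm_num
      linarith
    have hsk : s ≤ k := by
      rw [hs, Real.sqrt_le_left (by linarith)]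
      have := Real.log_le_sub_one_of_pos (show (0 : ℝ) < k by linarith)
      nlinarith
    have e1 : 2 * k / (2 + s) * L ≤ 2 * (k * s) := by
      rw [div_mul_eq_mul_div, div_le_iff₀ (by linarith), ← hsL]
      have : 0 ≤ (k : ℝ) * s := by positivity
      nlinarith
    have e2 : L ≤ k * s := by
      rw [← hsL]
      exact mul_le_mul_of_nonneg_right hsk hs0
    have e3 : ((k : ℝ) + 40 * (2 + s) * (k + 1) + 1) * Real.log 2 ≤ 147 * (k * s) := by
      have h1 : (k : ℝ) + 40 * (2 + s) * (k + 1) + 1 ≤ 121.5 * k + 60 * (k * s) := by nlinarith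
      have h3 : (k : ℝ) * 0.83 ≤ k * s := mul_le_mul_of_nonneg_left hs1 (by linarith)
      have h4 : 0 ≤ 121.5 * (k : ℝ) + 60 * (k * s) := by positivity
      have h5 : ((k : ℝ) + 40 * (2 + s) * (k + 1) + 1) * Real.log 2 ≤
          (121.5 * k + 60 * (k * s)) * 0.6932 := by
        calc _ ≤ (121.5 * (k : ℝ) + 60 * (k * s)) * Real.log 2 :=
              mul_le_mul_of_nonneg_right h1 (by linarith)
          _ ≤ _ := mul_le_mul_of_nonneg_left hlog2.le h4
      linarith
    have e4 : (2 * k / (2 + s) + 1) * L = 2 * k / (2 + s) * L + L := by ring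
    have e5 : Real.log k.factorial ≤ Real.log (PS q a k).ncard + 150 * k * s := by linarith
    have hf : (0 : ℝ) < k.factorial := by exact_mod_cast Nat.factorial_pos k
    rw [← Real.log_le_log_iff (by positivity) hP', Real.log_mul hf.ne' (Real.exp_pos _).ne',
      Real.log_exp]
    linarith

/-- the exponent is `1` -/
theorem ratio_tendsto (q a : ℕ) (hq : 1 ≤ q) (haq : Nat.Coprime a q) :
    Tendsto (fun k : ℕ => Real.log (PS q a k).ncard / Real.log k.factorial) atTop (nhds 1) := by
  have hlarge : ∀ A : ℝ, ∀ᶠ k : ℕ in atTop, A ≤ k ∧ A ≤ Real.log k := by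
    intro A
    have h1 : ∀ᶠ k : ℕ in atTop, A ≤ (k : ℝ) := tendsto_natCast_atTop_atTop.eventually_ge_atTop A
    have h2 : ∀ᶠ k : ℕ in atTop, A ≤ Real.log k :=
      (Real.tendsto_log_atTop.comp tendsto_natCast_atTop_atTop).eventually_ge_atTop A
    exact h1.and h2
  -- lower bound for `log k!`
  have hfac : ∀ k : ℕ, 1 ≤ k → (k : ℝ) * Real.log k - k ≤ Real.log k.factorial := by
    intro k hk
    have h1 := Stirling.le_log_factorial_stirling (n := k) (by omega)
    have hk1 : (1 : ℝ) ≤ k := by exact_mod_cast hk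
    have h2 : 0 ≤ Real.log k := Real.log_nonneg hk1
    have h3 : 0 ≤ Real.log (2 * Real.pi) := Real.log_nonneg (by
      have := Real.pi_gt_three
      linarith)
    linarith
  rw [tendsto_order]
  constructor
  · intro b hb
    set ε : ℝ := min ((1 - b) / 2) 1 with hε
    have hε0 : 0 < ε := lt_min (by linarith) one_pos
    have hε1 : ε ≤ 1 := min_le_right _ _
    have hεb : b < 1 - ε := by
      have : ε ≤ (1 - b) / 2 := min_le_left _ _
      linarith
    set lam : ℝ := 8 / ε with hlam
    have hlam8 : 8 ≤ lam := by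
      rw [hlam, le_div_iff₀ hε0]
      linarith
    have hlam0 : (0 : ℝ) < lam := by linarith
    set A : ℝ := 4 * (3 + 80 * lam) / ε with hA
    have hA2 : 4 * (3 + 80 * lam) ≤ A := by
      rw [hA, le_div_iff₀ hε0]
      nlinarith
    filter_upwards [hlarge A] with k hk
    obtain ⟨hk1, hk2⟩ := hk
    have hk1' : (1 : ℝ) ≤ k := by linarith
    have hkn : 1 ≤ k := by exact_mod_cast hk1'
    obtain ⟨hP, hb1⟩ := log_bound (k := k) (lam := lam) (by linarith) hkn q a hq haq
    have hf := hfac k hkn
    set L := Real.log k with hL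
    set Y := (k : ℝ) * L with hY
    have hL0 : 0 < L := by linarith
    have hY0 : 0 < Y := by positivity
    have hA0 : 0 < A := by linarith
    -- `L ≤ Y / A`, `k ≤ Y / A`
    have e1 : L ≤ Y / A := by
      rw [le_div_iff₀ hA0, hY]
      nlinarith
    have e2 : (k : ℝ) ≤ Y / A := by
      rw [le_div_iff₀ hA0, hY]
      nlinarith
    have hfY : Y / 2 ≤ Real.log k.factorial := by
      have : Y / A ≤ Y / 2 := div_le_div_of_nonneg_left hY0.le (by norm_num) (by linarith)
      linarith
    have hf0 : 0 < Real.log k.factorial := by linarith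
    have hlog2 : Real.log 2 ≤ 1 := by
      have := Real.log_two_lt_d9
      linarith
    have hlog20 : 0 ≤ Real.log 2 := Real.log_nonneg (by norm_num)
    have e3 : ((k : ℝ) + 40 * lam * (k + 1) + 1) * Real.log 2 ≤ (2 + 80 * lam) * k := by
      have h1 : (k : ℝ) + 40 * lam * (k + 1) + 1 ≤ (2 + 80 * lam) * k := by nlinarith
      have h2 : 0 ≤ (k : ℝ) + 40 * lam * (k + 1) + 1 := by positivity
      calc ((k : ℝ) + 40 * lam * (k + 1) + 1) * Real.log 2 ≤
          ((k : ℝ) + 40 * lam * (k + 1) + 1) * 1 := mul_le_mul_of_nonneg_left hlog2 h2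
        _ ≤ _ := by rw [mul_one]; exact h1
    have e4 : (2 * k / lam + 1) * L = 2 / lam * Y + L := by
      rw [hY]
      ring
    have e5 : (2 + 80 * lam) * (k : ℝ) ≤ (2 + 80 * lam) * (Y / A) :=
      mul_le_mul_of_nonneg_left e2 (by positivity)
    have e6 : 2 / lam * Y + Y / A + (2 + 80 * lam) * (Y / A) = (ε / 2) * Y := by
      rw [hA, hlam]
      field_simp
      ring
    have e7 : (ε / 2) * Y ≤ ε * Real.log k.factorial := by nlinarith
    rw [lt_div_iff₀ hf0]
    have e8 : b * Real.log k.factorial < (1 - ε) * Real.log k.factorial :=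
      mul_lt_mul_of_pos_right hεb hf0
    nlinarith
  · intro b hb
    filter_upwards [eventually_ge_atTop 3] with k hk
    have hk3 : 2 ≤ k.factorial := by
      calc 2 = Nat.factorial 2 := rfl
        _ ≤ k.factorial := Nat.factorial_le (by omega)
    have hf0 : 0 < Real.log k.factorial := Real.log_pos (by exact_mod_cast (by omega : 1 < k.factorial))
    rw [div_lt_iff₀ hf0]
    have h1 : Real.log (PS q a k).ncard ≤ Real.log k.factorial := by
      rcases Nat.eq_zero_or_pos (PS q a k).ncard with h | h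
      · rw [h, Nat.cast_zero, Real.log_zero]
        exact hf0.le
      · exact Real.log_le_log (by exact_mod_cast h) (by exact_mod_cast card_le q a k)
    nlinarith

end Pool.Agent.TH779.Ord
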